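import Pool.Agent.P.MP_728aaa_nt.Events

namespace Pool.Agent.P.MP_728aaa_nt

open Filter Topology Polynomial

/-- The geometric scale `2 ^ (s j)`. -/
noncomputable def pw (s : ℝ) (j : ℕ) : ℝ := (2 : ℝ) ^ (s * j)

theorem pw_pos (s : ℝ) (j : ℕ) : 0 < pw s j := Real.rpow_pos_of_pos two_pos _

theorem pw_add (s t : ℝ) (j : ℕ) : pw (s + t) j = pw s j * pw t j := by
  rw [pw, add_mul, Real.rpow_add two_pos, pw, pw]

theorem pw_le_pw {s t : ℝ} {i j : ℕ} (h : s * i ≤ t * j) : pw s i ≤ pw t j :=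
  Real.rpow_le_rpow_of_exponent_le one_le_two h

theorem pw_mono {s t : ℝ} (h : s ≤ t) (j : ℕ) : pw s j ≤ pw t j :=
  pw_le_pw (by gcongr)

theorem pw_one (j : ℕ) : pw 1 j = 2 ^ j := by rw [pw, one_mul, Real.rpow_natCast]

theorem pw_zero (j : ℕ) : pw 0 j = 1 := by rw [pw, zero_mul, Real.rpow_zero]

theorem pw_pow (s : ℝ) (j k : ℕ) : pw s j ^ k = pw (s * k) j := by
  rw [pw, pw, ← Real.rpow_natCast, ← Real.rpow_mul two_pos.le, mul_right_comm]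

theorem pw_neg (s : ℝ) (j : ℕ) : pw (-s) j = (pw s j)⁻¹ := by
  rw [pw, pw, neg_mul, Real.rpow_neg two_pos.le]

theorem pw_le_one {s : ℝ} (hs : s ≤ 0) (j : ℕ) : pw s j ≤ 1 := pw_zero j ▸ pw_mono hs j

theorem tendsto_pw {δ : ℝ} (hδ : 0 < δ) : Tendsto (pw δ) atTop atTop :=
  (tendsto_rpow_atTop_of_base_gt_one _ one_lt_two).comp
    (tendsto_natCast_atTop_atTop.const_mul_atTop hδ)

theorem ev_le_pw {δ : ℝ} (hδ : 0 < δ) (C : ℝ) : ∀ᶠ j in atTop, C ≤ pw δ j :=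
  (tendsto_pw hδ).eventually_ge_atTop C

theorem ev_mul_pw_le {s t : ℝ} (h : s < t) (C : ℝ) : ∀ᶠ j in atTop, C * pw s j ≤ pw t j := by
  filter_upwards [ev_le_pw (sub_pos.mpr h) C] with j hj
  rw [← sub_add_cancel t s, pw_add]
  exact mul_le_mul_of_nonneg_right hj (pw_pos _ _).le

theorem exists_seq (n : ℕ) {δ : ℝ} (hδ : 0 < δ) : ∃ κ η : ℕ → ℝ, (∀ j, Typ n (κ j) (η j)) ∧
    (∀ j, 0 < κ j) ∧ (∀ j, κ j ≤ 1) ∧ (∀ j, 0 ≤ η j) ∧
    (∀ C : ℝ, ∀ᶠ j in atTop, C / κ j ^ 2 ≤ pw δ j) ∧ Summable fun j : ℕ => (j + 1) * η j := by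
  obtain ⟨θ, A, h0, h1, hA, hT⟩ := exists_typ n
  obtain ⟨N, hN⟩ := pow_unbounded_of_one_lt θ⁻¹ (one_lt_two (α := ℝ))
  obtain ⟨q, hq⟩ := exists_nat_gt (4 * N / δ)
  have hq0 : (0 : ℝ) < q := lt_of_le_of_lt (by positivity) hq
  have hq1 : 0 < q := by exact_mod_cast hq0
  refine ⟨fun j => θ ^ (j / q + 1), fun j => A * (1 / 2) ^ (j / q), fun j => hT _,
    fun j => by positivity, fun j => pow_le_one₀ h0.le h1, fun j => by positivity, fun C => ?_, ?_⟩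
  · filter_upwards [ev_mul_pw_le (half_lt_self hδ) (|C| * 2 ^ (2 * N))] with j hj
    refine le_trans ?_ hj
    rw [div_eq_mul_inv, mul_assoc, ← inv_pow, ← inv_pow]
    refine mul_le_mul (le_abs_self C) ?_ (by positivity) (abs_nonneg C)
    calc (θ⁻¹ ^ (j / q + 1)) ^ 2 ≤ ((2 ^ N) ^ (j / q + 1)) ^ 2 := by gcongr
      _ = 2 ^ (2 * N) * pw 1 (2 * N * (j / q)) := by rw [pw_one]; ring
      _ ≤ _ := by
        refine mul_le_mul_of_nonneg_left (pw_le_pw ?_) (by positivity)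
        have h2 : ((j / q : ℕ) : ℝ) ≤ j / q := Nat.cast_div_le
        rw [div_lt_iff₀ hδ] at hq
        rw [le_div_iff₀ hq0] at h2
        push_cast
        have h3 : (0 : ℝ) ≤ (j / q : ℕ) := Nat.cast_nonneg _
        nlinarith
  · set r : ℝ := pw (-(1 / q)) 1
    have hr0 : 0 < r := pw_pos _ _
    have hr : r < 1 := Real.rpow_lt_one_of_one_lt_of_neg one_lt_two (by simp [hq1])
    have hs := summable_pow_mul_geometric_of_norm_lt_one 1 (r := r) (by rwa [Real.norm_eq_abs,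
      abs_of_pos hr0])
    refine Summable.of_nonneg_of_le (fun j => by positivity) (fun j => ?_)
      ((hs.add (summable_geometric_of_lt_one hr0.le hr)).mul_left (A * 2))
    have h2 : (1 / 2 : ℝ) ^ (j / q) ≤ 2 * r ^ j := by
      rw [pw_pow, one_div_pow, one_div, ← pw_one, ← pw_neg]
      nth_rewrite 1 [← pow_one (2 : ℝ), ← pw_one, ← pw_add]
      refine pw_le_pw ?_
      have h3 : (j : ℝ) < q * ((j / q : ℕ) + 1) := by exact_mod_cast Nat.lt_mul_div_succ j hq1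
      rw [← div_lt_iff₀' hq0] at h3
      simp only [Nat.cast_one, mul_one, neg_mul, one_div, one_mul, inv_mul_eq_div]
      linarith
    calc ((j : ℝ) + 1) * (A * (1 / 2) ^ (j / q)) ≤ (j + 1) * (A * (2 * r ^ j)) := by gcongr
      _ = _ := by ring

theorem shift {s ε : ℝ} (hs : 0 ≤ s) (hε : 0 < ε) (hε1 : ε ≤ 1) : ∀ᶠ j : ℕ in atTop, ∃ j', j ≤ j' ∧
    pw (ε / (s + 2)) j * 2 ^ j ≤ 2 ^ j' ∧
    pw (ε / (s + 2)) j * pw (-(s + 3 * ε)) j ≤ pw (-(s + ε)) j' := by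
  set δ := ε / (s + 2) with hδ
  have h0 : 0 < δ := by positivity
  have h1 : δ * (s + 2) = ε := div_mul_cancel₀ _ (by positivity)
  filter_upwards [tendsto_natCast_atTop_atTop.eventually_ge_atTop ((s + ε) / ε)] with j hj
  have h2 : (0 : ℝ) ≤ j := Nat.cast_nonneg j
  have h3 := Nat.le_ceil ((δ + 1) * j)
  have h4 := Nat.ceil_lt_add_one (a := (δ + 1) * j) (by positivity)
  rw [div_le_iff₀ hε] at hj
  refine ⟨⌈(δ + 1) * j⌉₊, ?_, ?_, ?_⟩
  · exact_mod_cast le_trans (show (j : ℝ) ≤ _ by nlinarith) h3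
  · rw [← pw_one, ← pw_one, ← pw_add]
    exact pw_le_pw (by linarith)
  · rw [← pw_add]
    refine pw_le_pw ?_
    have h5 := mul_le_mul_of_nonneg_left h4.le (add_pos_of_nonneg_of_pos hs hε).le
    have h6 : δ * ε * j ≤ δ * j := by gcongr; exact mul_le_of_le_one_right h0.le hε1
    have h7 : δ * (s + 2) * j = ε * j := by rw [h1]
    nlinarith

theorem ev_tail {a : ℕ → ℝ} {δ : ℝ} (hδ : 0 < δ) : ∀ᶠ j0 in atTop, ∑' j, a (j0 + j) < δ := by
  simpa only [add_comm] using (tendsto_sum_nat_add a).eventually_lt_const hδ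

theorem abstract (E F : ℝ → ℝ → Set Om) {s : ℝ} (hs : 0 ≤ s)
    (hE : ∀ B ρ ρ', ρ ≤ ρ' → E B ρ ⊆ E B ρ')
    (hF : ∀ B B' ρ ρ', B ≤ B' → ρ ≤ ρ' → F B ρ ⊆ F B' ρ')
    (hc : ∀ B ρ, IsClosed (E B ρ)) (ho : ∀ B ρ ρ', ρ < ρ' → F B ρ ⊆ interior (F B ρ'))
    (hdich : ∀ t δ : ℝ, 0 < t → 0 < δ → ∃ a : ℕ → ℝ, Summable a ∧ ∀ᶠ j in atTop, ∀ x m,
      ms (E (2 ^ j) (pw (-t) j)) x m ≤ a j * (1 / 2) ^ m ∨
      ms (F (pw δ j * 2 ^ j) (pw δ j * pw (-t) j))ᶜ x m ≤ 1 / 2 * (1 / 2) ^ m)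
    (hgen : ∀ ε : ℝ, 0 < ε → ∃ a : ℕ → ℝ, Summable a ∧ ∀ᶠ j in atTop,
      mu.real (F (2 ^ j) (pw (-(s + ε)) j)) ≤ a j)
    (hdense : ∀ x m, ∃ y ∈ cyl x m, ∃ B, y ∈ F B 0) :
    ∃ y, (∀ j0, ∃ j, j0 ≤ j ∧ y ∈ F (2 ^ j) (2 * pw (-s) j)) ∧
      ∀ ε : ℝ, 0 < ε → ∀ᶠ j in atTop, y ∉ E (2 ^ j) (pw (-(s + ε)) j) := by
  have hε : ∀ k : ℕ, (0 : ℝ) < 1 / (k + 1) := fun k => by positivity
  have H := stopping (fun k j => E (2 ^ j) (pw (-(s + 3 * (1 / (k + 1)))) j))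
    (fun k j => F (2 ^ j) (pw (-(s + 1 / (k + 1))) j))
    (fun j => interior (F (2 ^ j) (2 * pw (-s) j))) (fun _ _ => hc _ _)
    (fun k k' j hk => hE _ _ _ (pw_mono (by gcongr) j)) (fun _ => isOpen_interior)
    (fun k j => ho _ _ _ ((pw_mono (by linarith [hε k]) j).trans_lt
      (lt_two_mul_self (pw_pos (-s) j)))) (fun k => ?_) (fun k δ hδ => ?_) fun k j0 x m => ?_
  · obtain ⟨y, h1, h2⟩ := H
    refine ⟨y, fun j0 => (h1 j0).imp fun j hj => ⟨hj.1, interior_subset hj.2⟩, fun ε h0 => ?_⟩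
    obtain ⟨k, hk⟩ := exists_nat_one_div_lt (show 0 < ε / 3 by positivity)
    obtain ⟨j0, hj0⟩ := h2 k
    filter_upwards [eventually_ge_atTop j0] with j hj h
    exact hj0 j hj (hE _ _ _ (pw_mono (by linarith) j) h)
  · obtain ⟨a, ha, h⟩ := hdich (s + 3 * (1 / (k + 1))) (1 / (k + 1) / (s + 2))
      (by positivity) (by positivity)
    obtain ⟨j1, hj1⟩ := eventually_atTop.mp (h.and ((shift hs (hε k)
      (div_le_one_of_le₀ (by simp) (by positivity))).and (ev_tail (a := a) (δ := 1 / 8) (by norm_num))))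
    refine ⟨j1, fun j0 hj0 x m hlt => ?_⟩
    have h3 := ms_iUnion_le (x := x) (n := m) (a := fun j => a (j0 + j) * (1 / 2) ^ m)
      (A := fun j => E (2 ^ (j0 + j)) (pw (-(s + 3 * (1 / (k + 1)))) (j0 + j))) (fun j => ?_)
      ((ha.comp_injective (add_right_injective j0)).mul_right _)
    · rw [tsum_mul_right] at h3
      have h4 := mul_le_mul_of_nonneg_right (hj1 j0 hj0).2.2.le
        (show (0 : ℝ) ≤ (1 / 2) ^ m by positivity)
      linarith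
    · obtain ⟨h4, ⟨j', h5, h6, h7⟩, -⟩ := hj1 (j0 + j) (by omega)
      refine (h4 x m).resolve_right fun h8 => ?_
      obtain ⟨i, rfl⟩ := Nat.exists_eq_add_of_le (show j0 ≤ j' by omega)
      have h9 := ms_union_le _ _ x m |>.trans (add_le_add (ms_mono (x := x) (n := m)
        (F := ⋃ j, F (2 ^ (j0 + j)) (pw (-(s + 1 / (k + 1))) (j0 + j)))
        fun y _ hy => Set.mem_iUnion.mpr ⟨i, hF _ _ _ _ h6 h7 hy⟩) h8)
      rw [Set.union_compl_self, ms_univ] at h9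
      linarith
  · obtain ⟨a, ha, h⟩ := hgen _ (hε k)
    obtain ⟨j1, hj1⟩ := eventually_atTop.mp (h.and (ev_tail (a := a) hδ))
    refine ⟨j1, lt_of_le_of_lt ?_ (hj1 j1 le_rfl).2⟩
    have h3 := ms_iUnion_le (x := fun _ => true) (n := 0) (a := fun j => a (j1 + j))
      (A := fun j => F (2 ^ (j1 + j)) (pw (-(s + 1 / (k + 1))) (j1 + j))) (fun j => ?_)
      (ha.comp_injective (add_right_injective j1))
    · rwa [ms, cyl_zero, Set.inter_univ] at h3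
    · rw [ms, cyl_zero, Set.inter_univ]
      exact (hj1 _ (by omega)).1
  · obtain ⟨y, hy, B, hB⟩ := hdense x m
    obtain ⟨j, hj⟩ := pow_unbounded_of_one_lt B (one_lt_two (α := ℝ))
    obtain ⟨l, -, hl⟩ := exists_cyl_subset isOpen_interior (ho _ _ _ (pw_pos _ (j0 + j))
      (hF _ (2 ^ (j0 + j)) _ _ (hj.le.trans (by gcongr <;> simp)) le_rfl hB)) 0
    exact ⟨y, hy, l, j, hl.trans interior_subset⟩

end Pool.Agent.P.MP_728aaa_nt
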