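import Pool.Agent.P.MP_728aaa_nt.Tree

namespace Pool.Agent.P.MP_728aaa_nt

open Set Polynomial

/-- The continued fraction digit attached to a bit. -/
def dig (b : Bool) : ℤ := if b then 2 else 1

theorem dig_mem (b : Bool) : 1 ≤ dig b ∧ dig b ≤ 2 := by cases b <;> simp [dig]

/-- The shift. -/
def sh (m : ℕ) (x : Om) : Om := fun i => x (m + i)

theorem exists_xi : ∃ ξ : Om → ℝ, (∀ x, 0 ≤ ξ x ∧ ξ x ≤ 1) ∧
    ∀ x, ξ x * (dig (x 0) * ξ (sh 1 x) + (dig (x 0) + 1)) = ξ (sh 1 x) + 1 := by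
  have : Fact ((0 : ℝ) ≤ 1) := ⟨zero_le_one⟩
  have hpos : ∀ (b : Bool) (t : Icc (0 : ℝ) 1), (0 : ℝ) < dig b * t + (dig b + 1) := by
    intro b t
    have h1 : (1 : ℝ) ≤ dig b := by exact_mod_cast (dig_mem b).1
    nlinarith [t.2.1]
  let T : (Om → Icc (0 : ℝ) 1) →o (Om → Icc (0 : ℝ) 1) :=
    ⟨fun g x => ⟨(g (sh 1 x) + 1) / (dig (x 0) * g (sh 1 x) + (dig (x 0) + 1)),
      div_nonneg (by linarith [(g (sh 1 x)).2.1]) (hpos _ _).le, by
        have h1 : (1 : ℝ) ≤ dig (x 0) := by exact_mod_cast (dig_mem (x 0)).1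
        rw [div_le_one (hpos _ _)]
        nlinarith [(g (sh 1 x)).2.1]⟩, fun g g' h x => by
      have h1 : (g (sh 1 x) : ℝ) ≤ g' (sh 1 x) := h (sh 1 x)
      refine Subtype.mk_le_mk.mpr ?_
      rw [div_le_div_iff₀ (hpos _ _) (hpos _ _)]
      nlinarith⟩
  refine ⟨fun x => T.lfp x, fun x => (T.lfp x).2, fun x => ?_⟩
  have h1 := congrArg Subtype.val (congrFun T.map_lfp x)
  exact (eq_div_iff (hpos _ _).ne').mp h1.symm

/-- The point of the Cantor set coded by a sequence of bits. -/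
noncomputable def xi : Om → ℝ := Classical.choose exists_xi

theorem xi_mem (x : Om) : 0 ≤ xi x ∧ xi x ≤ 1 := (Classical.choose_spec exists_xi).1 x

theorem xi_eq (x : Om) :
    xi x * (dig (x 0) * xi (sh 1 x) + (dig (x 0) + 1)) = xi (sh 1 x) + 1 :=
  (Classical.choose_spec exists_xi).2 x

/-- The matrices of convergents. -/
def mat (x : Om) : ℕ → ℤ × ℤ × ℤ × ℤ
  | 0 => (1, 0, 0, 1)
  | m + 1 =>
    ((mat x m).1 + (mat x m).2.1 * dig (x m), (mat x m).1 + (mat x m).2.1 * (dig (x m) + 1),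
      (mat x m).2.2.1 + (mat x m).2.2.2 * dig (x m),
      (mat x m).2.2.1 + (mat x m).2.2.2 * (dig (x m) + 1))

theorem mat_congr {x y : Om} {m : ℕ} (h : y ∈ cyl x m) : mat y m = mat x m := by
  induction m with
  | zero => rfl
  | succ m ih => simp only [mat, ih (cyl_anti x (Nat.le_succ m) h), h m (Nat.lt_succ_self m)]

theorem mat_int (x : Om) (m : ℕ) :
    (mat x m).1 * (mat x m).2.2.2 - (mat x m).2.1 * (mat x m).2.2.1 = 1 ∧
      0 ≤ (mat x m).2.2.1 ∧ (mat x m).2.2.1 ≤ (mat x m).2.2.2 ∧ 2 ^ m ≤ (mat x m).2.2.2 := by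
  induction m with
  | zero => simp [mat]
  | succ m ih =>
    obtain ⟨h1, h2, h3, h4⟩ := ih
    have h5 := dig_mem (x m)
    have h6 : (0 : ℤ) < 2 ^ m := by positivity
    simp only [mat]
    refine ⟨by linear_combination h1, by nlinarith, by nlinarith, ?_⟩
    rw [pow_succ]
    nlinarith

theorem mat_le (x : Om) (m l : ℕ) : (mat x (m + l)).2.2.2 ≤ 4 ^ l * (mat x m).2.2.2 := by
  induction l with
  | zero => simp
  | succ l ih =>
    obtain ⟨-, h2, h3, -⟩ := mat_int x (m + l)
    have h5 := dig_mem (x (m + l))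
    rw [← add_assoc, pow_succ]
    simp only [mat]
    nlinarith

theorem mat_xi (x : Om) (m : ℕ) : xi x * ((mat x m).2.2.1 * xi (sh m x) + (mat x m).2.2.2) =
    (mat x m).1 * xi (sh m x) + (mat x m).2.1 := by
  induction m with
  | zero =>
    have : sh 0 x = x := funext fun i => by simp [sh]
    simp [mat, this]
  | succ m ih =>
    have h1 := xi_eq (sh m x)
    have h2 : sh 1 (sh m x) = sh (m + 1) x := funext fun i => by simp [sh, add_assoc]
    rw [h2, show sh m x 0 = x m from rfl] at h1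
    simp only [mat]
    push_cast
    linear_combination (dig (x m) * xi (sh (m + 1) x) + (dig (x m) + 1)) * ih -
      (xi x * (mat x m).2.2.1 - (mat x m).1) * h1

/-- The denominators, as real numbers. -/
noncomputable def den (x : Om) (m : ℕ) : ℝ := (mat x m).2.2.2

theorem two_pow_le_den (x : Om) (m : ℕ) : 2 ^ m ≤ den x m := by
  unfold den
  exact_mod_cast (mat_int x m).2.2.2

theorem den_pos (x : Om) (m : ℕ) : 0 < den x m := lt_of_lt_of_le (by positivity) (two_pow_le_den x m)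

theorem xi_sub {x y z : Om} {m : ℕ} (hy : y ∈ cyl x m) (hz : z ∈ cyl x m) :
    ∃ u : ℝ, den x m ^ 2 ≤ u ∧ u ≤ 4 * den x m ^ 2 ∧
      |xi y - xi z| * u = |xi (sh m y) - xi (sh m z)| := by
  have h1 := mat_xi y m
  have h2 := mat_xi z m
  rw [mat_congr hy] at h1
  rw [mat_congr hz] at h2
  obtain ⟨h3, h4, h5, -⟩ := mat_int x m
  have h6 := den_pos x m
  unfold den at *
  generalize mat x m = M at *
  obtain ⟨a, b, c, d⟩ := M
  simp only at *
  have h3' : (a : ℝ) * d - b * c = 1 := by exact_mod_cast h3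
  have h4' : (0 : ℝ) ≤ c := by exact_mod_cast h4
  have h5' : (c : ℝ) ≤ d := by exact_mod_cast h5
  obtain ⟨hs0, hs1⟩ := xi_mem (sh m y)
  obtain ⟨ht0, ht1⟩ := xi_mem (sh m z)
  generalize xi (sh m y) = s at *
  generalize xi (sh m z) = t at *
  have h7 : (d : ℝ) ≤ c * s + d ∧ c * s + d ≤ 2 * d := by constructor <;> nlinarith
  have h8 : (d : ℝ) ≤ c * t + d ∧ c * t + d ≤ 2 * d := by constructor <;> nlinarith
  refine ⟨(c * s + d) * (c * t + d), by nlinarith, by nlinarith, ?_⟩
  rw [← abs_of_pos (show 0 < (c * s + d) * (c * t + d) by nlinarith), ← abs_mul]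
  congr 1
  linear_combination (c * t + d) * h1 - (c * s + d) * h2 + (s - t) * h3'

theorem xi_diam {x y z : Om} {m : ℕ} (hy : y ∈ cyl x m) (hz : z ∈ cyl x m) :
    |xi y - xi z| ≤ 1 / den x m ^ 2 := by
  obtain ⟨u, h1, -, h3⟩ := xi_sub hy hz
  have h4 : |xi (sh m y) - xi (sh m z)| ≤ 1 := by
    rw [abs_le]
    constructor <;> linarith [xi_mem (sh m y), xi_mem (sh m z)]
  rw [le_div_iff₀ (pow_pos (den_pos x m) 2)]
  nlinarith [abs_nonneg (xi y - xi z)]

theorem xi_gap {y z : Om} (h : y 0 ≠ z 0) : 1 / 10 ≤ |xi y - xi z| := by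
  have h1 := xi_eq y
  have h2 := xi_eq z
  obtain ⟨hs0, hs1⟩ := xi_mem (sh 1 y)
  obtain ⟨ht0, ht1⟩ := xi_mem (sh 1 z)
  obtain ⟨hy0, hy1⟩ := xi_mem y
  obtain ⟨hz0, hz1⟩ := xi_mem z
  rw [le_abs]
  cases hy : y 0 <;> cases hz : z 0 <;> simp only [hy, hz, dig] at h h1 h2
  · exact absurd rfl h
  · left
    norm_num at h1 h2
    have h3 : 1 / 2 ≤ xi y := by nlinarith
    have h4 : xi z ≤ 2 / 5 := by nlinarith
    linarith
  · right
    norm_num at h1 h2
    have h3 : 1 / 2 ≤ xi z := by nlinarith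
    have h4 : xi y ≤ 2 / 5 := by nlinarith
    linarith
  · exact absurd rfl h

theorem xi_sep {x y z : Om} {m r : ℕ} (hy : y ∈ cyl x m) (hz : z ∈ cyl x m)
    (h : z ∉ cyl y (m + r)) : 1 / (40 * 16 ^ r * den x m ^ 2) ≤ |xi y - xi z| := by
  classical
  have h1 : ∃ l, z l ≠ y l := by
    by_contra hno
    push Not at hno
    exact h fun i _ => hno i
  have h2 := Nat.find_spec h1
  have h3 : z ∈ cyl y (Nat.find h1) := fun i hi => not_not.mp (Nat.find_min h1 hi)
  have h4 : Nat.find h1 < m + r := by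
    by_contra hno
    exact h (cyl_anti y (not_lt.mp hno) h3)
  have h5 : m ≤ Nat.find h1 := by
    by_contra hno
    exact h2 ((hz _ (not_le.mp hno)).trans (hy _ (not_le.mp hno)).symm)
  generalize Nat.find h1 = l at *
  obtain ⟨l, rfl⟩ := Nat.exists_eq_add_of_le h5
  obtain ⟨u, h6, h7, h8⟩ := xi_sub (self_mem_cyl y (m + l)) h3
  have h9 := xi_gap (y := sh (m + l) y) (z := sh (m + l) z) (Ne.symm h2)
  have h10 : den y (m + l) ≤ 4 ^ r * den x m := by
    have h11 : den y (m + l) ≤ 4 ^ l * den y m := by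
      unfold den
      exact_mod_cast mat_le y m l
    have h12 : den y m = den x m := by rw [den, den, mat_congr hy]
    have h13 : (4 : ℝ) ^ l ≤ 4 ^ r := pow_le_pow_right₀ (by norm_num) (by omega)
    rw [h12] at h11
    exact h11.trans (mul_le_mul_of_nonneg_right h13 (den_pos x m).le)
  have h11 : den y (m + l) ^ 2 ≤ 16 ^ r * den x m ^ 2 := by
    rw [show (16 : ℝ) = 4 ^ 2 by norm_num, ← pow_mul, mul_comm 2 r, pow_mul, ← mul_pow]
    exact pow_le_pow_left₀ (den_pos _ _).le h10 2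
  have h12 := den_pos x m
  rw [div_le_iff₀ (by positivity)]
  nlinarith [abs_nonneg (xi y - xi z)]

theorem continuous_xi : Continuous xi := by
  refine continuous_iff_continuousAt.mpr fun x => Metric.tendsto_nhds.mpr fun ε hε => ?_
  obtain ⟨m, hm⟩ := exists_pow_lt_of_lt_one hε (show (1 / 2 : ℝ) < 1 by norm_num)
  filter_upwards [(isOpen_cyl x m).mem_nhds (self_mem_cyl x m)] with y hy
  refine (xi_diam hy (self_mem_cyl x m)).trans_lt (lt_of_le_of_lt ?_ hm)
  have h1 := two_pow_le_den x m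
  have h2 : (1 : ℝ) ≤ 2 ^ m := one_le_pow₀ (by norm_num)
  rw [one_div_pow]
  exact one_div_le_one_div_of_le (by positivity) (by nlinarith)

theorem xi_bad (x : Om) (p q : ℤ) (hq : 1 ≤ q) : 1 / 32 / (q : ℝ) ^ 2 ≤ |xi x - p / q| := by
  classical
  have h1 : ∃ m, 2 * q < (mat x m).2.2.2 := by
    obtain ⟨m, hm⟩ := pow_unbounded_of_one_lt (2 * q) (show (1 : ℤ) < 2 by norm_num)
    exact ⟨m, hm.trans_le (mat_int x m).2.2.2⟩
  have h2 := Nat.find_spec h1
  have h3 : (mat x (Nat.find h1)).2.2.2 ≤ 8 * q := by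
    rcases Nat.eq_zero_or_eq_succ_pred (Nat.find h1) with h | h
    · rw [h]
      simp only [mat]
      omega
    · have h4 := Nat.find_min h1 (m := (Nat.find h1).pred) (by omega)
      have h5 := mat_le x (Nat.find h1).pred 1
      rw [h, Nat.succ_eq_add_one]
      omega
  generalize Nat.find h1 = m at h2 h3
  have h4 := mat_xi x m
  obtain ⟨h5, h6, h7, -⟩ := mat_int x m
  generalize mat x m = M at *
  obtain ⟨a, b, c, d⟩ := M
  simp only at *
  obtain ⟨ht0, ht1⟩ := xi_mem (sh m x)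
  generalize xi (sh m x) = t at *
  have h5' : (a : ℝ) * d - b * c = 1 := by exact_mod_cast h5
  have h6' : (0 : ℝ) ≤ c := by exact_mod_cast h6
  have h7' : (c : ℝ) ≤ d := by exact_mod_cast h7
  have h2' : 2 * (q : ℝ) < d := by exact_mod_cast h2
  have h3' : (d : ℝ) ≤ 8 * q := by exact_mod_cast h3
  have hq' : (1 : ℝ) ≤ q := by exact_mod_cast hq
  have h8 : 1 / 2 ≤ |((q * a - p * c : ℤ) : ℝ) * t + (q * b - p * d : ℤ)| := by
    by_contra hno
    have h9 := abs_lt.mp (not_le.mp hno)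
    rcases lt_trichotomy (q * a - p * c) 0 with h | h | h
    · have h10 : ((q * a - p * c : ℤ) : ℝ) ≤ -1 := by exact_mod_cast Int.le_sub_one_of_lt h
      push_cast at h9 h10
      have h11 : (q : ℝ) = (q * a - p * c) * (d + c * t) - c * ((q * a - p * c) * t +
        (q * b - p * d)) := by linear_combination (-q) * h5'
      nlinarith [mul_nonneg h6' ht0]
    · rw [h, Int.cast_zero, zero_mul, zero_add] at h9
      have h10 : q * b - p * d = 0 := by
        have h11 : -1 < q * b - p * d := by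
          exact_mod_cast (show (-1 : ℝ) < (q * b - p * d : ℤ) by linarith)
        have h12 : q * b - p * d < 1 := by
          exact_mod_cast (show ((q * b - p * d : ℤ) : ℝ) < 1 by linarith)
        omega
      have h11 : q = 0 := by linear_combination (-q) * h5 + d * h - c * h10
      omega
    · have h10 : (1 : ℝ) ≤ ((q * a - p * c : ℤ) : ℝ) := by exact_mod_cast h
      push_cast at h9 h10
      have h11 : (q : ℝ) = (q * a - p * c) * (d + c * t) - c * ((q * a - p * c) * t +
        (q * b - p * d)) := by linear_combination (-q) * h5'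
      nlinarith [mul_nonneg h6' ht0]
  have h9 : ((q * a - p * c : ℤ) : ℝ) * t + (q * b - p * d : ℤ) =
      (xi x - p / q) * (q * (c * t + d)) := by
    push_cast
    field_simp
    linear_combination (-q) * h4
  have h12 : 0 ≤ (c : ℝ) * t + d ∧ (c : ℝ) * t + d ≤ 16 * q := by constructor <;> nlinarith
  have h10 : 0 ≤ (q : ℝ) * (c * t + d) := mul_nonneg (by linarith) h12.1
  have h11 : (q : ℝ) * (c * t + d) ≤ 16 * q ^ 2 := by nlinarith
  rw [h9, abs_mul, abs_of_nonneg h10] at h8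
  rw [div_le_iff₀ (by positivity)]
  nlinarith [abs_nonneg (xi x - p / q)]

theorem exists_quadratic (x : Om) (m : ℕ) :
    ∃ y ∈ cyl x m, ∃ Q : ℤ[X], Q ≠ 0 ∧ Q.natDegree ≤ 2 ∧ aeval (xi y) Q = 0 := by
  let y : Om := fun i => if i < m then x i else false
  have h0 : sh m y = fun _ => false := funext fun i => by simp [sh, y]
  have h1 := xi_eq fun _ => false
  have h2 := mat_xi y m
  obtain ⟨h3, -, -, h4⟩ := mat_int y m
  rw [h0] at h2
  rw [show sh 1 (fun _ => false) = fun _ => false from rfl] at h1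
  generalize xi (fun _ => false) = t at *
  generalize mat y m = M at *
  obtain ⟨a, b, c, d⟩ := M
  simp only [dig] at *
  refine ⟨y, fun i hi => by simp [y, hi], (C d * X - C b) ^ 2 + (C d * X - C b) * (C a - C c * X) -
    (C a - C c * X) ^ 2, fun h => ?_, by compute_degree, ?_⟩
  · have h5 := congrArg (aeval ((b : ℚ) / d)) h
    have h6 : (d : ℚ) ≠ 0 := by
      have : (0 : ℤ) < 2 ^ m := by positivity
      exact_mod_cast (show d ≠ 0 by omega)
    have h7 : (a : ℚ) * d - b * c = 1 := by exact_mod_cast h3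
    simp only [map_sub, map_add, map_pow, map_mul, aeval_X, eq_intCast, map_intCast,
      map_zero] at h5
    have h8 : (d : ℚ) * (b / d) - b = 0 := by field_simp; ring
    have h9 : (a - c * (b / d) : ℚ) * d = 1 := by field_simp; linarith
    rw [h8] at h5
    have h10 : (a - c * (b / d) : ℚ) = 0 := by nlinarith
    rw [h10] at h9
    simp at h9
  · simp only [map_sub, map_add, map_pow, map_mul, aeval_X, eq_intCast, map_intCast]
    have h5 : (d : ℝ) * xi y - b = t * (a - c * xi y) := by linear_combination h2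
    rw [h5]
    norm_num at h1
    linear_combination (a - c * xi y) ^ 2 * h1

/-- The Lagrange interpolation bound. -/
theorem lagrange_bound {ι : Type*} {s : Finset ι} {v : ι → ℝ} {p : ℝ[X]} {N : ℕ} {δ R B x : ℝ}
    (hs : s.card = N + 1) (hp : p.natDegree ≤ N) (hδ : 0 < δ)
    (hsep : ∀ i ∈ s, ∀ j ∈ s, i ≠ j → δ ≤ |v i - v j|) (hR : ∀ i ∈ s, |x - v i| ≤ R)
    (hB : ∀ i ∈ s, |p.eval (v i)| ≤ B) : |p.eval x| ≤ (N + 1) * (B * (R / δ) ^ N) := by
  classical
  have h1 : Set.InjOn v s := fun i hi j hj hij => by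
    by_contra hne
    have := hsep i hi j hj hne
    rw [hij, sub_self, abs_zero] at this
    linarith
  have h2 : p.degree < s.card := by
    rw [hs]
    exact (degree_le_of_natDegree_le hp).trans_lt (by exact_mod_cast Nat.lt_succ_self N)
  conv_lhs => rw [Lagrange.eq_interpolate h1 h2]
  rw [Lagrange.interpolate_apply, eval_finsetSum]
  refine (Finset.abs_sum_le_sum_abs _ _).trans ((Finset.sum_le_card_nsmul _ _
    (B * (R / δ) ^ N) fun i hi => ?_).trans (by simp [hs]))
  rw [eval_mul, eval_C, abs_mul, Lagrange.basis, eval_prod, Finset.abs_prod]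
  refine mul_le_mul (hB i hi) ?_ (Finset.prod_nonneg fun _ _ => abs_nonneg _)
    ((abs_nonneg _).trans (hB i hi))
  have h3 : (s.erase i).card = N := by rw [Finset.card_erase_of_mem hi, hs, Nat.add_sub_cancel]
  rw [← h3, ← Finset.prod_const]
  refine Finset.prod_le_prod (fun _ _ => abs_nonneg _) fun j hj => ?_
  rw [Finset.mem_erase] at hj
  simp only [Lagrange.basisDivisor, eval_mul, eval_C, eval_sub, eval_X, abs_mul, abs_inv]
  rw [← div_eq_inv_mul]
  exact div_le_div₀ ((abs_nonneg _).trans (hR j hj.2)) (hR j hj.2) hδ (hsep i hi j hj.2 hj.1.symm)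

/-- Polynomials are good on the Cantor set. -/
theorem good_poly {p : ℝ[X]} {N : ℕ} (hp : p.natDegree ≤ N) (r : ℕ) :
    Good (1 / ((N + 2) * (40 * 16 ^ r) ^ N)) (N * (1 / 2) ^ r) fun y => |p.eval (xi y)| := by
  classical
  rintro x m t ht ⟨y0, hy0, hle⟩
  set ε : ℝ := 1 / ((N + 2) * (40 * 16 ^ r) ^ N) with hε
  let S : Set Om := {y | |p.eval (xi y)| < ε * t} ∩ cyl x m
  let G : Finset (Fin (m + r) → Bool) := Finset.univ.filter fun g => ∃ y ∈ S, ∀ i, y i.1 = g i
  have hG : ∀ g, ∃ y : Om, g ∈ G → y ∈ S ∧ ∀ i, y i.1 = g i := fun g => by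
    by_cases h : g ∈ G
    · obtain ⟨y, hy⟩ := (Finset.mem_filter.mp h).2
      exact ⟨y, fun _ => hy⟩
    · exact ⟨x, fun h' => absurd h' h⟩
  choose Y hY using hG
  have h1 : G.card ≤ N := by
    by_contra hno
    obtain ⟨s, hs, hcard⟩ := Finset.exists_subset_card_eq (not_le.mp hno : N + 1 ≤ G.card)
    have hd := den_pos x m
    have h2 := lagrange_bound (v := fun g => xi (Y g)) (x := xi y0) hcard hp
      (δ := 1 / (40 * 16 ^ r * den x m ^ 2)) (by positivity)
      (fun g hg g' hg' hne => xi_sep (hY g (hs hg)).1.2 (hY g' (hs hg')).1.2 fun h => hne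
        (funext fun i => by rw [← (hY g (hs hg)).2, ← (hY g' (hs hg')).2, h i i.2]))
      (fun g hg => xi_diam hy0 (hY g (hs hg)).1.2) fun g hg => (hY g (hs hg)).1.1.le
    have h3 : 1 / den x m ^ 2 / (1 / (40 * 16 ^ r * den x m ^ 2)) = 40 * 16 ^ r := by
      field_simp
    have h4 : ε * t * (40 * 16 ^ r) ^ N = t / (N + 2) := by
      rw [hε]
      field_simp
    rw [h3, h4] at h2
    have h5 : (N + 1) * (t / (N + 2)) < t := by
      rw [← mul_div_assoc, div_lt_iff₀ (by positivity)]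
      nlinarith
    linarith
  have h2 : S ⊆ ⋃ g ∈ G, cyl (Y g) (m + r) := fun y hy => by
    have h3 : (fun i => y i.1) ∈ G := Finset.mem_filter.mpr ⟨Finset.mem_univ _, y, hy, fun _ => rfl⟩
    exact mem_iUnion₂.mpr ⟨_, h3, fun i hi => ((hY _ h3).2 ⟨i, hi⟩).symm⟩
  refine (MeasureTheory.measureReal_mono h2 (MeasureTheory.measure_ne_top _ _)).trans
    ((MeasureTheory.measureReal_biUnion_finset_le _ _).trans ?_)
  simp only [mu_cyl, Finset.sum_const, nsmul_eq_mul]
  rw [pow_add, mul_comm ((1 / 2 : ℝ) ^ m), ← mul_assoc]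
  gcongr

/-- Values at bounded points are controlled by the supremum on the Cantor set. -/
theorem eval_le_of_cantor (N : ℕ) : ∃ C : ℝ, 0 < C ∧ ∀ p : ℝ[X], p.natDegree ≤ N → ∀ B : ℝ,
    (∀ y, |p.eval (xi y)| ≤ B) → ∀ x : ℝ, |x| ≤ N → |p.eval x| ≤ C * B := by
  refine ⟨(N + 1) * ((N + 1) / (1 / (40 * 16 ^ (N + 1)))) ^ N, by positivity,
    fun p hp B hB x hx => ?_⟩
  have h1 := lagrange_bound (s := Finset.range (N + 1)) (x := x) (R := N + 1)
    (v := fun i => xi fun j => decide (j = i)) (Finset.card_range _) hp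
    (δ := 1 / (40 * 16 ^ (N + 1))) (by positivity) (fun i hi j hj hne => by
      have h2 := xi_sep (x := fun _ => true) (m := 0) (r := N + 1) (y := fun l => decide (l = i))
        (z := fun l => decide (l = j)) (by simp [cyl_zero]) (by simp [cyl_zero]) fun h => by
          simpa [hne] using h i (by simpa using hi)
      simpa [den, mat] using h2)
    (fun i _ => by
      have h2 := xi_mem fun j => decide (j = i)
      have h3 := abs_le.mp hx
      rw [abs_le]
      constructor <;> linarith) fun i _ => hB _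
  linarith

end Pool.Agent.P.MP_728aaa_nt
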