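import Pool.Agent.P.MP_728aaa_nt.PropZ

namespace Pool.Agent.P.MP_728aaa_nt

open Finset

variable {n k : ℕ}

theorem Ind.cons {v : Fin k → ZV n} (hv : Ind v) {w : ZV n} (hw : rc w ∉ sp v) :
    Ind (Fin.cons w v : Fin (k + 1) → ZV n) := by
  have h9 : (fun i => rc ((Fin.cons w v : Fin (k + 1) → ZV n) i)) =
      Fin.cons (rc w) fun i => rc (v i) := funext fun i => Fin.cases rfl (fun _ => rfl) i
  unfold Ind
  rw [h9]
  exact linearIndependent_finCons.mpr ⟨hv, hw⟩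

theorem rc_ne_zero {z : ZV n} (hz : z ≠ 0) : rc z ≠ 0 := (ind_single hz).ne_zero 0 ∘ by
  intro h
  ext i
  simpa [rc] using congrFun h i

theorem dich_simple {κ η : ℝ} (hT : Typ n κ η) (hκ : 0 ≤ κ) {h : Om → RV n →ₗ[ℝ] RV n}
    (hh : Adm h) (x : Om) (m : ℕ) :
    ms {y | ∃ z, z ≠ 0 ∧ ‖h y (rc z)‖ < κ / 4 ^ ((n + 1) * (n + 1))} x m ≤ η * (1 / 2) ^ m ∨
      ∀ y ∈ cyl x m, ∃ z, z ≠ 0 ∧ ‖h y (rc z)‖ < 1 := by
  obtain ⟨t, ht, ⟨k, v, hv, h1⟩, h2⟩ := hT h hh x m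
  by_cases h3 : 4 ^ ((n + 1) * (n + 1)) * t < 1
  · refine Or.inr fun y hy => ?_
    obtain ⟨b, hb, h4⟩ := hermite_int (hh.inj y) hv
    by_contra hno
    push Not at hno
    have h5 := Finset.one_le_prod (s := univ) fun i _ => hno _ (hb.ne_zero i)
    have h6 := mul_le_mul_of_nonneg_left (h1 y hy) (show (0 : ℝ) ≤ 4 ^ ((n + 1) * (n + 1)) by
      positivity)
    linarith
  · refine Or.inl (le_trans (ms_mono ?_) h2)
    rintro y _ ⟨z, hz, h4⟩ h5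
    have h6 := h5 1 _ (ind_single hz)
    rw [Fin.prod_univ_one] at h6
    have h7 := h6.trans_lt h4
    rw [lt_div_iff₀ (by positivity)] at h7
    nlinarith

theorem generic_simple {κ η : ℝ} (hT : Typ n κ η) (hκ : 0 ≤ κ) {h : Om → RV n →ₗ[ℝ] RV n}
    (hh : Adm h) (hlow : ∀ (k : ℕ) (v : Fin k → ZV n), Ind v →
      ∃ y, 1 ≤ Psi fun i => h y (rc (v i))) :
    mu.real {y | ∃ z, z ≠ 0 ∧ ‖h y (rc z)‖ < κ} ≤ η := by
  obtain ⟨t, ht, ⟨k, v, hv, h1⟩, h2⟩ := hT h hh (fun _ => true) 0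
  obtain ⟨y0, hy0⟩ := hlow k v hv
  have h3 := hy0.trans (h1 y0 (by simp [cyl_zero]))
  rw [ms, cyl_zero, Set.inter_univ, pow_zero, mul_one] at h2
  refine le_trans (MeasureTheory.measureReal_mono ?_) h2
  rintro y ⟨z, hz, h4⟩ h5
  have h6 := h5 1 _ (ind_single hz)
  rw [Fin.prod_univ_one] at h6
  nlinarith

theorem claimA {g g' : RV n →ₗ[ℝ] RV n} {k0 : Fin (n + 1)} {σ : ℝ} (hσ : 0 < σ)
    (h1 : ∀ v, ‖g v‖ ≤ ‖g' v‖) (h2 : ∀ v, |g v k0| ≤ σ * ‖g' v‖) {z : ZV n}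
    (hz : g (rc z) ≠ 0) (h3 : ‖g (rc z)‖ ≤ σ) (h4 : ‖g (rc z)‖ ≤ 2 * |g (rc z) k0|)
    {b : Fin k → ZV n} (hb : Ind b) : ∃ (l : ℕ) (u : Fin l → ZV n), Ind u ∧
      (Psi fun i => g (rc (u i))) ≤
        2 * (n + 1) * (n + 1).factorial * σ * ∏ i, ‖g' (rc (b i))‖ := by
  have hP : 0 ≤ ∏ i, ‖g' (rc (b i))‖ := prod_nonneg fun _ _ => norm_nonneg _
  by_cases hw : rc z ∈ sp b
  · obtain ⟨x, hx⟩ := (Submodule.mem_span_range_iff_exists_fun ℝ).mp hw
    refine ⟨k, b, hb, le_of_mul_le_mul_left ?_ (norm_pos_iff.mpr hz)⟩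
    have h5 : ∑ j, x j • g (rc (b j)) = g (rc z) := by simp only [← map_smul, ← map_sum, hx]
    have h6 : ‖g (rc z)‖ ≤ 2 * ∑ j, |x j| * (σ * ‖g' (rc (b j))‖) := by
      refine h4.trans (mul_le_mul_of_nonneg_left ?_ zero_le_two)
      rw [← h5, Finset.sum_apply]
      refine (abs_sum_le_sum_abs _ _).trans (sum_le_sum fun j _ => ?_)
      rw [Pi.smul_apply, smul_eq_mul, abs_mul]
      exact mul_le_mul_of_nonneg_left (h2 _) (abs_nonneg _)
    have h7 : ∀ j, |x j| * (σ * ‖g' (rc (b j))‖) * (Psi fun i => g (rc (b i))) ≤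
        (n + 1).factorial * σ * ‖g (rc z)‖ * ∏ i, ‖g' (rc (b i))‖ := by
      intro j
      have h8 := abs_mul_psi_le (fun i => g (rc (b i))) x j
      have h9 : ∏ i ∈ univ.erase j, ‖g (rc (b i))‖ ≤ ∏ i ∈ univ.erase j, ‖g' (rc (b i))‖ :=
        prod_le_prod (fun _ _ => norm_nonneg _) fun _ _ => h1 _
      have h10 : (k.factorial : ℝ) ≤ (n + 1).factorial := by
        exact_mod_cast Nat.factorial_le hb.le
      rw [h5] at h8
      rw [← mul_prod_erase _ _ (mem_univ j)]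
      calc _ = σ * ‖g' (rc (b j))‖ * (|x j| * Psi fun i => g (rc (b i))) := by ring
        _ ≤ σ * ‖g' (rc (b j))‖ * ((n + 1).factorial * (‖g (rc z)‖ *
            ∏ i ∈ univ.erase j, ‖g' (rc (b i))‖)) :=
          mul_le_mul_of_nonneg_left (h8.trans (mul_le_mul h10
            (mul_le_mul_of_nonneg_left h9 (norm_nonneg _)) (mul_nonneg (norm_nonneg _)
            (prod_nonneg fun _ _ => norm_nonneg _)) (by positivity))) (by positivity)
        _ = _ := by ring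
    have h8 := sum_le_card_nsmul univ _ _ fun j _ => h7 j
    have h9 : (k : ℝ) ≤ n + 1 := by exact_mod_cast hb.le
    rw [← sum_mul, card_univ, Fintype.card_fin, nsmul_eq_mul] at h8
    calc _ ≤ 2 * (∑ j, |x j| * (σ * ‖g' (rc (b j))‖)) * Psi fun i => g (rc (b i)) :=
          mul_le_mul_of_nonneg_right h6 (psi_nonneg _)
      _ ≤ 2 * ((n + 1) * ((n + 1).factorial * σ * ‖g (rc z)‖ * ∏ i, ‖g' (rc (b i))‖)) := by
          rw [mul_assoc]
          exact mul_le_mul_of_nonneg_left (h8.trans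
            (mul_le_mul_of_nonneg_right h9 (by positivity))) zero_le_two
      _ = _ := by ring
  · refine ⟨_, _, hb.cons hw, (psi_le_prod _).trans ?_⟩
    have h10 : ((k + 1).factorial : ℝ) ≤ (n + 1).factorial := by
      exact_mod_cast Nat.factorial_le (hb.cons hw).le
    have h9 : ∏ i, ‖g (rc (b i))‖ ≤ ∏ i, ‖g' (rc (b i))‖ :=
      prod_le_prod (fun _ _ => norm_nonneg _) fun _ _ => h1 _
    simp only [Fin.prod_univ_succ, Fin.cons_zero, Fin.cons_succ]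
    calc _ ≤ (n + 1).factorial * (σ * ∏ i, ‖g' (rc (b i))‖) :=
          mul_le_mul h10 (mul_le_mul h3 h9 (prod_nonneg fun _ _ => norm_nonneg _) hσ.le)
            (mul_nonneg (norm_nonneg _) (prod_nonneg fun _ _ => norm_nonneg _)) (by positivity)
      _ = 1 * (n + 1).factorial * σ * ∏ i, ‖g' (rc (b i))‖ := by ring
      _ ≤ _ := by
          gcongr
          linarith [Nat.cast_nonneg (α := ℝ) n]

/-- Comparison of two boxes that differ in one coordinate. -/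
theorem compare {κ η : ℝ} (hT : Typ n κ η) (hκ : 0 < κ) {h h' : Om → RV n →ₗ[ℝ] RV n}
    (hh : Adm h) (hh' : Adm h') {k0 : Fin (n + 1)} {σ : ℝ} (hσ : 0 < σ) (hσ1 : σ ≤ 1)
    (hrel : ∀ y v i, h' y v i = if i = k0 then σ⁻¹ * h y v i else h y v i)
    (hsmall : 2 * (n + 1) * (n + 1).factorial * (4 ^ ((n + 1) * (n + 1))) ^ 3 * σ < κ ^ 2)
    (x : Om) (m : ℕ) :
    ms {y | ∃ z, z ≠ 0 ∧ ‖h y (rc z)‖ ≤ σ ∧ ‖h y (rc z)‖ ≤ 2 * |h y (rc z) k0|} x m ≤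
        η * (1 / 2) ^ m ∨
      ms {y | ¬ ∃ z, z ≠ 0 ∧ ‖h y (rc z)‖ ≤ 1 ∧ ‖h y (rc z)‖ < σ⁻¹ * |h y (rc z) k0|} x m ≤
        η * (1 / 2) ^ m := by
  classical
  obtain ⟨t, ht, ⟨k, v, hv, h1⟩, h2⟩ := hT h hh x m
  obtain ⟨t', ht', ⟨k', v', hv', h1'⟩, h2'⟩ := hT h' hh' x m
  refine or_iff_not_imp_left.mpr fun hE => le_trans (ms_mono ?_) h2'
  obtain ⟨y1, hy1, ⟨z, hz, h3, h4⟩, h5⟩ := exists_of_ms_lt (h2.trans_lt (not_le.mp hE))
  have hσ' : 1 ≤ σ⁻¹ := (one_le_inv₀ hσ).mpr hσ1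
  have hk0 : ∀ y v, σ⁻¹ * |h y v k0| ≤ ‖h' y v‖ := fun y v => by
    have := norm_le_pi_norm (h' y v) k0
    rwa [hrel, if_pos rfl, Real.norm_eq_abs, abs_mul, abs_of_pos (inv_pos.mpr hσ)] at this
  set H : ℝ := 4 ^ ((n + 1) * (n + 1))
  have hH : 0 < H := by positivity
  obtain ⟨b', hb', h6⟩ := hermite_int (hh'.inj y1) hv'
  obtain ⟨l, u, hu, h7⟩ := claimA (g := h y1) (g' := h' y1) hσ
    (fun v => (pi_norm_le_iff_of_nonneg (norm_nonneg _)).mpr fun i => by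
      by_cases hi : i = k0
      · subst hi
        exact (le_mul_of_one_le_left (abs_nonneg _) hσ').trans (hk0 _ _)
      · simpa [hrel, hi] using norm_le_pi_norm (h' y1 v) i)
    (fun v => (inv_mul_le_iff₀ hσ).mp (hk0 _ _))
    (fun h0 => rc_ne_zero hz (hh.inj y1 (h0.trans (map_zero _).symm))) h3 h4 hb'
  obtain ⟨b'', hb'', h8⟩ := hermite_int (hh.inj y1) hu
  have h9 : κ * t ≤ H * (2 * (n + 1) * (n + 1).factorial * σ * (H * t')) :=
    (not_not.mp h5 _ _ hb'').trans (h8.trans (mul_le_mul_of_nonneg_left (h7.trans (by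
      gcongr
      exact h6.trans (mul_le_mul_of_nonneg_left (h1' y1 hy1) hH.le))) hH.le))
  intro y hy hno hM
  obtain ⟨b, hb, h10⟩ := hermite_int (hh.inj y) hv
  let S : Finset (Fin k) := univ.filter fun i => ‖h y (rc (b i))‖ ≤ 1
  obtain ⟨l', w, hw1, hw2, hw3⟩ := hb.sub S
  have h11 : ∏ j, ‖h' y (rc (w j))‖ ≤ ∏ j, ‖h y (rc (w j))‖ := by
    refine prod_le_prod (fun _ _ => norm_nonneg _) fun j _ =>
      (pi_norm_le_iff_of_nonneg (norm_nonneg _)).mpr fun i => ?_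
    by_cases hi : i = k0
    · obtain ⟨i', hi', hj⟩ := hw2 j
      rw [hrel, if_pos hi, Real.norm_eq_abs, abs_mul, abs_of_pos (inv_pos.mpr hσ), hi]
      exact not_lt.mp fun hlt => hno ⟨_, hw1.ne_zero j, hj ▸ (mem_filter.mp hi').2, hlt⟩
    · simpa [hrel, hi] using norm_le_pi_norm (h y (rc (w j))) i
  have h12 : ∏ i ∈ S, ‖h y (rc (b i))‖ ≤ ∏ i, ‖h y (rc (b i))‖ := by
    rw [← prod_mul_prod_compl S]
    exact le_mul_of_one_le_right (prod_nonneg fun _ _ => norm_nonneg _)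
      (Finset.one_le_prod fun i hi => (not_le.mp (by simpa [S] using hi)).le)
  rw [hw3 fun z => ‖h y (rc z)‖] at h11
  have h13 : κ * t' ≤ H * t := (hM _ _ hw1).trans (h11.trans (h12.trans
    (h10.trans (mul_le_mul_of_nonneg_left (h1 y hy) hH.le))))
  have h14 : κ ^ 2 * t ≤ 2 * (n + 1) * (n + 1).factorial * H ^ 3 * σ * t :=
    calc _ = κ * (κ * t) := by ring
      _ ≤ κ * (H * (2 * (n + 1) * (n + 1).factorial * σ * (H * t'))) := by gcongr
      _ = 2 * (n + 1) * (n + 1).factorial * H ^ 2 * σ * (κ * t') := by ring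
      _ ≤ 2 * (n + 1) * (n + 1).factorial * H ^ 2 * σ * (H * t) := by gcongr
      _ = _ := by ring
  exact absurd (le_of_mul_le_mul_right h14 ht) (not_le.mpr hsmall)

end Pool.Agent.P.MP_728aaa_nt
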