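import Mathlib

namespace Pool.Agent.P.MP_728aaa_nt

open Polynomial

/-- The height of an integer polynomial: the maximum of the moduli of its coefficients. -/
def ht (P : ℤ[X]) : ℕ := P.support.sup fun i => (P.coeff i).natAbs

/-- The set of real `w` whose supremum is Mahler's exponent `w_n(ξ)`: those `w` such that
`0 < |P(ξ)| ≤ H(P) ^ (-w)` for infinitely many integer polynomials `P` of degree at most `n`. -/
def mahlerSet (n : ℕ) (ξ : ℝ) : Set ℝ :=
  {w | {P : ℤ[X] | P.natDegree ≤ n ∧ 0 < |aeval ξ P| ∧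
    |aeval ξ P| ≤ (ht P : ℝ) ^ (-w)}.Infinite}

/-- An integer polynomial of positive degree, with coprime coefficients and positive leading
coefficient, vanishing at `α`. -/
def Vanishes (α : ℂ) (P : ℤ[X]) : Prop :=
  0 < P.natDegree ∧ P.IsPrimitive ∧ 0 < P.leadingCoeff ∧ aeval α P = 0

/-- `P` is the minimal polynomial of `α` over the integers. -/
def IsMinPoly (α : ℂ) (P : ℤ[X]) : Prop :=
  Vanishes α P ∧ ∀ Q, Vanishes α Q → P.natDegree ≤ Q.natDegree

/-- The set of real `w` whose supremum is Koksma's exponent `w_n^*(ξ)`: those `w` such that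
`0 < |ξ - α| ≤ H(α) ^ (-w - 1)` for infinitely many algebraic numbers `α` of degree at most `n`
taken in `A` (all complex numbers, or the real numbers). -/
def koksmaSet (A : Set ℂ) (n : ℕ) (ξ : ℝ) : Set ℝ :=
  {w | {α ∈ A | ∃ P, IsMinPoly α P ∧ P.natDegree ≤ n ∧ 0 < ‖ξ - α‖ ∧
    ‖ξ - α‖ ≤ (ht P : ℝ) ^ (-w - 1)}.Infinite}

/-- Badly approximable real numbers. -/
def BadlyApprox (ξ : ℝ) : Prop :=
  Irrational ξ ∧ ∃ c : ℝ, 0 < c ∧ ∀ p q : ℤ, 1 ≤ q → c / (q : ℝ) ^ 2 ≤ |ξ - p / q|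

end Pool.Agent.P.MP_728aaa_nt
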