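import Pool.Agent.P.MP_728aaa_nt.Taylor

namespace Pool.Agent.P.MP_728aaa_nt

open Finset Polynomial

variable {n : ℕ}

/-- Some polynomial of bounded height is small. -/
def EW (n : ℕ) (B ρ : ℝ) : Set Om :=
  {y | ∃ P : ℤ[X], P ≠ 0 ∧ P.natDegree ≤ n ∧ HLe P B ∧ |aeval (xi y) P| ≤ ρ}

/-- Some polynomial of bounded height has a close complex root. -/
def EC (n : ℕ) (B ρ : ℝ) : Set Om :=
  {y | ∃ P : ℤ[X], P ≠ 0 ∧ P.natDegree ≤ n ∧ HLe P B ∧
    ∃ β : ℂ, aeval β P = 0 ∧ ‖xi y - β‖ ≤ ρ}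

/-- Some polynomial of bounded height has a close real root. -/
def ER (n : ℕ) (B ρ : ℝ) : Set Om :=
  {y | ∃ P : ℤ[X], P ≠ 0 ∧ P.natDegree ≤ n ∧ HLe P B ∧
    ∃ β : ℝ, aeval β P = 0 ∧ |xi y - β| ≤ ρ}

theorem HLe.mono {P : ℤ[X]} {B B' : ℝ} (h : HLe P B) (hB : B ≤ B') : HLe P B' :=
  fun i => (h i).trans hB

theorem EW_mono {B B' ρ ρ' : ℝ} (hB : B ≤ B') (hρ : ρ ≤ ρ') : EW n B ρ ⊆ EW n B' ρ' :=
  fun _ ⟨P, h1, h2, h3, h4⟩ => ⟨P, h1, h2, h3.mono hB, h4.trans hρ⟩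

theorem EC_mono {B B' ρ ρ' : ℝ} (hB : B ≤ B') (hρ : ρ ≤ ρ') : EC n B ρ ⊆ EC n B' ρ' :=
  fun _ ⟨P, h1, h2, h3, β, h4, h5⟩ => ⟨P, h1, h2, h3.mono hB, β, h4, h5.trans hρ⟩

theorem ER_mono {B B' ρ ρ' : ℝ} (hB : B ≤ B') (hρ : ρ ≤ ρ') : ER n B ρ ⊆ ER n B' ρ' :=
  fun _ ⟨P, h1, h2, h3, β, h4, h5⟩ => ⟨P, h1, h2, h3.mono hB, β, h4, h5.trans hρ⟩

theorem ER_subset_EC {B ρ : ℝ} : ER n B ρ ⊆ EC n B ρ := by
  rintro y ⟨P, h1, h2, h3, β, h4, h5⟩
  refine ⟨P, h1, h2, h3, β, ?_, ?_⟩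
  · rw [← Complex.coe_algebraMap, aeval_algebraMap_apply, h4, map_zero]
  · rwa [← Complex.ofReal_sub, Complex.norm_real]

theorem abs_xi_le (y : Om) : |xi y| ≤ 1 := abs_le.mpr ⟨by linarith [xi_mem y], (xi_mem y).2⟩

theorem EC_subset_EW {B ρ : ℝ} (hρ : ρ ≤ 1) : EC n B ρ ⊆ EW n B (n * (C0 n * B * ρ)) := by
  rintro y ⟨P, h1, h2, h3, β, h4, h5⟩
  refine ⟨P, h1, h2, h3, tc_zero P _ ▸ (tc_root h2 h4 h5).trans
    ((sum_le_card_nsmul _ _ (C0 n * B * ρ) fun j _ => ?_).trans (by simp))⟩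
  have h6 := (norm_nonneg _).trans h5
  exact mul_le_mul (tc_le h2 (abs_xi_le y) h3 _) (pow_le_of_le_one h6 hρ (by omega))
    (by positivity) ((abs_nonneg _).trans (tc_le h2 (abs_xi_le y) h3 0))

theorem abs_tay {τ : RV n} (hτ : ∀ i, 0 < τ i) (x : ℝ) (z : ZV n) (i : Fin (n + 1)) :
    |tay τ x (rc z) i| = |tc (pz z) x i| / τ i := by
  rw [tay_rc, abs_mul, abs_of_pos (inv_pos.mpr (hτ i)), div_eq_inv_mul]

theorem norm_tay_le_iff {τ : RV n} (hτ : ∀ i, 0 < τ i) {x s : ℝ} (hs : 0 ≤ s) {z : ZV n} :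
    ‖tay τ x (rc z)‖ ≤ s ↔ ∀ i : Fin (n + 1), |tc (pz z) x i| ≤ s * τ i := by
  simp only [pi_norm_le_iff_of_nonneg hs, Real.norm_eq_abs, abs_tay hτ, div_le_iff₀ (hτ _)]

theorem EW_subset {B ρ K s : ℝ} (hρ : 0 < ρ) (hB : ρ ≤ B) (hK : 0 < K) (hs : C0 n / K < s) :
    EW n B ρ ⊆ {y | ∃ z : ZV n, z ≠ 0 ∧
      ‖tay (fun i => if i = 0 then K * ρ else K * B) (xi y) (rc z)‖ < s} := by
  rintro y ⟨P, h1, h2, h3, h4⟩
  obtain ⟨z, hz, rfl⟩ := exists_pz h1 h2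
  have h5 := C0_pos n
  have h6 := hρ.trans_le hB
  refine ⟨z, hz, lt_of_le_of_lt ((norm_tay_le_iff (fun i => by split_ifs <;> positivity)
    (by positivity)).mpr fun i => ?_) hs⟩
  split_ifs with hi
  · rw [hi, ← mul_assoc, div_mul_cancel₀ _ hK.ne']
    exact (tc_zero _ _ ▸ h4).trans (le_mul_of_one_le_left hρ.le (one_le_C0 n))
  · rw [← mul_assoc, div_mul_cancel₀ _ hK.ne']
    exact tc_le h2 (abs_xi_le y) h3 _

theorem dichW (n : ℕ) : ∃ C : ℝ, 1 ≤ C ∧ ∀ κ η : ℝ, Typ n κ η → 0 < κ → ∀ B ρ : ℝ, 0 < ρ →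
    ρ ≤ B → ∀ (x : Om) (m : ℕ), ms (EW n B ρ) x m ≤ η * (1 / 2) ^ m ∨
      ∀ y ∈ cyl x m, y ∈ EW n (C / κ * B) (C / κ * ρ) := by
  set H : ℝ := 4 ^ ((n + 1) * (n + 1))
  have hH : 1 ≤ H := one_le_pow₀ (by norm_num)
  have h0 := one_le_C0 n
  refine ⟨C0 n * (2 * C0 n * H), one_le_mul_of_one_le_of_one_le h0 (by nlinarith),
    fun κ η hT hκ B ρ hρ hB x m => ?_⟩
  have h6 := hρ.trans_le hB
  have hK : 0 < 2 * C0 n * H / κ := by positivity
  have hτ : ∀ i : Fin (n + 1),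
      0 < if i = 0 then 2 * C0 n * H / κ * ρ else 2 * C0 n * H / κ * B := fun i => by
    split_ifs <;> positivity
  refine (dich_simple hT hκ.le (adm_tay hτ) x m).imp (le_trans (ms_mono fun y _ hy =>
    EW_subset hρ hB hK ?_ hy)) fun h y hy => ?_
  · rw [div_lt_div_iff₀ hK (by positivity), mul_div_cancel₀ _ hκ.ne']
    nlinarith
  · obtain ⟨z, hz, h1⟩ := h y hy
    have h2 := (norm_tay_le_iff hτ zero_le_one).mp h1.le
    refine ⟨pz z, pz_ne_zero hz, natDegree_ofFn_le z, (hle_of_tc (natDegree_ofFn_le z)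
      (abs_xi_le y) (B := 2 * C0 n * H / κ * B) fun i => (h2 i).trans ?_).mono (le_of_eq (by ring)),
      ?_⟩
    · split_ifs
      · rw [one_mul]
        gcongr
      · rw [one_mul]
    · have h3 := h2 0
      rw [if_pos rfl, one_mul, Fin.val_zero, tc_zero] at h3
      refine h3.trans ?_
      rw [mul_div_assoc (C0 n), mul_assoc (C0 n)]
      exact le_mul_of_one_le_left (by positivity) h0

theorem genW (n : ℕ) : ∃ C : ℝ, 1 ≤ C ∧ ∀ κ η : ℝ, Typ n κ η → 0 < κ → κ ≤ 1 → ∀ B ρ : ℝ,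
    0 < ρ → ρ ≤ B → 1 ≤ B → (C / κ) ^ (n + 1) * (ρ * B ^ n) ≤ 1 → mu.real (EW n B ρ) ≤ η := by
  obtain ⟨c, hc, h⟩ := psi_tay_low n
  have h0 := one_le_C0 n
  have h1 : 1 ≤ max 1 c⁻¹ := le_max_left _ _
  refine ⟨max 1 c⁻¹ * (2 * C0 n), by nlinarith, fun κ η hT hκ hκ1 B ρ hρ hB hB1 hle => ?_⟩
  have hK : 1 ≤ 2 * C0 n / κ := (one_le_div hκ).mpr (by linarith)
  have hK0 : 0 < 2 * C0 n / κ := by positivity
  refine le_trans (MeasureTheory.measureReal_mono (EW_subset hρ hB hK0 ?_))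
    (generic_simple hT hκ.le (adm_tay fun i => by split_ifs <;> positivity)
      (h _ _ (by positivity) (by gcongr) (by nlinarith) ?_))
  · rw [div_lt_iff₀ hK0, mul_div_cancel₀ _ hκ.ne']
    linarith
  · rw [mul_div_assoc, mul_pow] at hle
    have h2 : c⁻¹ ≤ max 1 c⁻¹ ^ (n + 1) := (le_max_right _ _).trans (le_self_pow₀ h1 (by omega))
    have h3 : 2 * C0 n / κ * ρ * (2 * C0 n / κ * B) ^ n =
      (2 * C0 n / κ) ^ (n + 1) * (ρ * B ^ n) := by ring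
    rw [h3, ← mul_one c, ← inv_mul_le_iff₀ hc]
    refine le_trans ?_ hle
    rw [mul_assoc]
    gcongr

theorem exists_box {B ρ : ℝ} (hρ : 0 < ρ) (hρ1 : ρ ≤ 1) {M : ℕ} (hM : (1 / 2) ^ M ≤ ρ ^ n)
    (hM' : C0 n * B < 2 ^ M) {y : Om} (hy : y ∈ EC n B ρ) :
    ∃ k : Fin (n + 1), ∃ i ∈ range (2 * M), k ≠ 0 ∧ 2 ^ i / 2 ^ M ≤ C0 n * B ∧ ∃ z : ZV n, z ≠ 0 ∧
      (∀ j, |tc (pz z) (xi y) j| ≤ C0 n * B) ∧ 2 ^ i / 2 ^ M ≤ |tc (pz z) (xi y) k| ∧
      |tc (pz z) (xi y) k| ≤ 2 * (2 ^ i / 2 ^ M) ∧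
      |tc (pz z) (xi y) 0| ≤ (n + 1) * (2 * (2 ^ i / 2 ^ M)) * ρ ^ (k : ℕ) := by
  obtain ⟨P, h1, h2, h3, β, h4, h5⟩ := hy
  obtain ⟨z, hz, rfl⟩ := exists_pz h1 h2
  have h6 : 0 < (pz z).natDegree := natDegree_pos_of_aeval_root h1 h4 fun x hx => by
    simpa using hx
  obtain ⟨j, hj, hmax⟩ := exists_max_image (range n)
    (fun j => |tc (pz z) (xi y) (j + 1)| * ρ ^ (j + 1)) ⟨0, mem_range.mpr (h6.trans_le h2)⟩
  have h7 := (tc_root h2 h4 h5).trans (sum_le_card_nsmul _ _ _ hmax)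
  have h8 := hmax ((pz z).natDegree - 1) (mem_range.mpr (by omega))
  rw [Nat.sub_add_cancel h6] at h8
  have h9 : (1 / 2) ^ M ≤ |tc (pz z) (xi y) (j + 1)| :=
    hM.trans ((pow_le_pow_of_le_one hρ.le hρ1 h2).trans ((le_mul_of_one_le_left (by positivity)
      (one_le_tc h1 _)).trans (h8.trans (mul_le_of_le_one_right (abs_nonneg _)
        (pow_le_one₀ hρ.le hρ1)))))
  have h10 := tc_le h2 (abs_xi_le y) h3
  have h2M : (0 : ℝ) < 2 ^ M := by positivity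
  obtain ⟨i, hi1, hi2⟩ := exists_nat_pow_near (x := |tc (pz z) (xi y) (j + 1)| * 2 ^ M)
    (by rwa [one_div_pow, div_le_iff₀ h2M] at h9) one_lt_two
  have h11 : 2 ^ i / 2 ^ M ≤ |tc (pz z) (xi y) (j + 1)| := (div_le_iff₀ h2M).mpr hi1
  have h12 : |tc (pz z) (xi y) (j + 1)| ≤ 2 * (2 ^ i / 2 ^ M) := by
    rw [← mul_div_assoc, le_div_iff₀ h2M, ← pow_succ']
    exact hi2.le
  refine ⟨⟨j + 1, by simpa using hj⟩, i, mem_range.mpr ?_, by simp, h11.trans (h10 _), z, hz, h10,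
    h11, h12, h7.trans ?_⟩
  · refine (pow_lt_pow_iff_right₀ (one_lt_two (α := ℝ))).mp (hi1.trans_lt ?_)
    rw [two_mul, pow_add]
    exact mul_lt_mul_of_pos_right ((h10 _).trans_lt hM') h2M
  · rw [card_range, nsmul_eq_mul, mul_assoc]
    gcongr
    linarith

theorem dichS (n : ℕ) : ∃ C : ℝ, 1 ≤ C ∧ ∀ κ η : ℝ, Typ n κ η → 0 < κ → κ ≤ 1 → 0 ≤ η →
    ∀ (B ρ : ℝ) (M : ℕ), 1 ≤ B → 0 < ρ → ρ ≤ 1 → (1 / 2) ^ M ≤ ρ ^ n → C * B ≤ 2 ^ M →
    ∀ (x : Om) (m : ℕ), ms (EC n B ρ) x m ≤ (n + 1) * (2 * M) * (η * (1 / 2) ^ m) ∨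
      ms (ER n (C / κ ^ 2 * B) (C / κ ^ 2 * ρ))ᶜ x m ≤ η * (1 / 2) ^ m := by
  classical
  obtain ⟨CR, hCR, hroot⟩ := exists_real_root n
  set C1 : ℝ := 2 * (n + 1) * (n + 1).factorial * (4 ^ ((n + 1) * (n + 1))) ^ 3 with hC1
  have hn : (1 : ℝ) ≤ n + 1 := by linarith [Nat.cast_nonneg (α := ℝ) n]
  have h0 := one_le_C0 n
  have h1 : 1 ≤ C1 := one_le_mul_of_one_le_of_one_le (one_le_mul_of_one_le_of_one_le
    (by linarith) (by exact_mod_cast (n + 1).factorial_pos))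
    (one_le_pow₀ (one_le_pow₀ (by norm_num)))
  have hc1 : 1 ≤ (n + 1) * C0 n * (2 * (n + 1) * C0 n) :=
    one_le_mul_of_one_le_of_one_le (by nlinarith) (by nlinarith)
  have hc2 : 1 ≤ CR * (2 * C1) := by nlinarith
  refine ⟨(n + 1) * C0 n * (2 * (n + 1) * C0 n) * (CR * (2 * C1)),
    one_le_mul_of_one_le_of_one_le hc1 hc2,
    fun κ η hT hκ hκ1 hη B ρ M hB hρ hρ1 hM hM' x m => or_iff_not_imp_right.mpr fun hno => ?_⟩
  set σ := κ ^ 2 / (2 * C1) with hσdef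
  have hσ : 0 < σ := by positivity
  have hσ1 : σ ≤ 1 := (div_le_one (by positivity)).mpr (by nlinarith)
  let τ : Fin (n + 1) → ℕ → RV n := fun k i j => σ⁻¹ * if j = k then 2 * (2 ^ i / 2 ^ M) else
    if j = 0 then (n + 1) * (2 * (2 ^ i / 2 ^ M)) * ρ ^ (k : ℕ) else C0 n * B
  have hτ : ∀ k i j, 0 < τ k i j := fun k i j => by
    simp only [τ]
    split_ifs <;> positivity
  let E : Fin (n + 1) × ℕ → Set Om := fun p => {y | ∃ z, z ≠ 0 ∧
    ‖tay (τ p.1 p.2) (xi y) (rc z)‖ ≤ σ ∧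
    ‖tay (τ p.1 p.2) (xi y) (rc z)‖ ≤ 2 * |tay (τ p.1 p.2) (xi y) (rc z) p.1|}
  let s : Finset (Fin (n + 1) × ℕ) := (univ ×ˢ range (2 * M)).filter fun p =>
    p.1 ≠ 0 ∧ 2 ^ p.2 / 2 ^ M ≤ C0 n * B
  have h2 : ∀ p ∈ s, ms (E p) x m ≤ η * (1 / 2) ^ m := by
    rintro ⟨k, i⟩ hp
    obtain ⟨hk, hi⟩ := (mem_filter.mp hp).2
    simp only at hk hi
    refine (compare hT hκ (adm_tay (hτ k i)) (adm_tay (τ := Function.update (τ k i) k
      (σ * τ k i k)) fun j => ?_) hσ hσ1 (k0 := k) (fun y v j => ?_) ?_ x m).resolve_right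
      fun h => hno (le_trans (ms_mono ?_) h)
    · by_cases hj : j = k
      · simpa [hj] using mul_pos hσ (hτ k i k)
      · simpa [hj] using hτ k i j
    · by_cases hj : j = k
      · simp [hj, tay_apply, mul_comm σ⁻¹, mul_assoc]
      · simp [hj, tay_apply]
    · rw [← hC1, hσdef, mul_div_assoc', div_lt_iff₀ (by positivity)]
      nlinarith [mul_pos (pow_pos hκ 2) (one_pos.trans_le h1)]
    rintro y - hy ⟨z, hz, h3, h4⟩
    refine hy ?_
    have h5 := (norm_tay_le_iff (hτ k i) zero_le_one).mp h3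
    have h6 : HLe (pz z) (C0 n * (σ⁻¹ * (2 * (n + 1) * C0 n * B))) := by
      refine hle_of_tc (natDegree_ofFn_le z) (abs_xi_le y) fun j => (h5 j).trans ?_
      have h7 : ρ ^ (k : ℕ) ≤ 1 := pow_le_one₀ hρ.le hρ1
      have h8 : (0 : ℝ) < 2 ^ i / 2 ^ M := by positivity
      have h9 : 0 < C0 n * B := by positivity
      rw [one_mul]
      refine mul_le_mul_of_nonneg_left ?_ (by positivity)
      split_ifs
      · nlinarith
      · exact (mul_le_of_le_one_right (by positivity) h7).trans (by nlinarith)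
      · nlinarith
    have h7 := (norm_le_pi_norm _ 0).trans_lt h4
    rw [Real.norm_eq_abs, abs_tay (hτ k i), abs_tay (hτ k i), div_lt_iff₀ (hτ k i 0)] at h7
    have h8 : σ⁻¹ * (|tc (pz z) (xi y) k| / τ k i k) * τ k i 0 =
        |tc (pz z) (xi y) k| * ((n + 1) / σ * ρ ^ (k : ℕ)) := by
      simp only [τ, if_true, if_neg hk.symm]
      field_simp
    have hk1 : (k : ℕ) ≠ 0 := fun h => hk (Fin.ext h)
    have h9 : 1 ≤ CR * ((n + 1) / σ) :=
      one_le_mul_of_one_le_of_one_le hCR ((one_le_div hσ).mpr (hσ1.trans hn))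
    rw [h8] at h7
    obtain ⟨β, h10, h11⟩ := hroot ((pz z).map (Int.castRingHom ℝ))
      (natDegree_map_le.trans (natDegree_ofFn_le z)) (xi y) (CR * ((n + 1) / σ) * ρ)
      (by positivity) k (by
        refine (mul_lt_mul_of_pos_left h7 (by positivity)).trans_le ?_
        rw [mul_pow, mul_left_comm, ← mul_assoc CR]
        exact mul_le_mul_of_nonneg_left (mul_le_mul_of_nonneg_right (le_self_pow₀ h9 hk1)
          (by positivity)) (abs_nonneg _))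
    have h12 : (n + 1) * (C0 n * (σ⁻¹ * (2 * (n + 1) * C0 n * B))) ≤
        (n + 1) * C0 n * (2 * (n + 1) * C0 n) * (CR * (2 * C1)) / κ ^ 2 * B := by
      calc _ = (n + 1) * C0 n * (2 * (n + 1) * C0 n) * (1 * (2 * C1)) / κ ^ 2 * B := by
            rw [hσdef]
            field_simp
        _ ≤ _ := by gcongr
    have h13 : CR * ((n + 1) / σ) * ρ ≤
        (n + 1) * C0 n * (2 * (n + 1) * C0 n) * (CR * (2 * C1)) / κ ^ 2 * ρ := by
      calc _ = (n + 1) * 1 * 1 * (CR * (2 * C1)) / κ ^ 2 * ρ := by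
            rw [hσdef]
            field_simp
        _ ≤ _ := by
            gcongr
            nlinarith
    rcases h11 with h11 | h11
    · exact ⟨pz z, pz_ne_zero hz, natDegree_ofFn_le z, h6.mono ((le_mul_of_one_le_left
        (by positivity) hn).trans h12), β, by rwa [aeval_def, ← eval_map], h10.trans h13⟩
    · refine ⟨(pz z).derivative, fun h => ?_, (natDegree_derivative_le _).trans
        ((Nat.sub_le _ _).trans (natDegree_ofFn_le z)), fun j => le_trans ?_ h12, β,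
        by rwa [derivative_map, eval_map] at h11, h10.trans h13⟩
      · rw [tc_eq_zero (i := k) _ (by rw [derivative_eq_zero.mp h]; omega),
          abs_zero, zero_mul] at h7
        exact absurd h7 (not_lt.mpr (abs_nonneg _))
      · rw [coeff_derivative]
        push_cast
        rw [abs_mul, mul_comm]
        rcases le_or_gt j n with h | h
        · refine mul_le_mul ?_ (h6 _) (abs_nonneg _) (by positivity)
          rw [abs_of_nonneg (by positivity)]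
          gcongr
        · rw [coeff_eq_zero_of_natDegree_lt (p := pz z) ((natDegree_ofFn_le z).trans_lt (by omega))]
          simp only [Int.cast_zero, abs_zero, mul_zero]
          positivity
  have h3 : ms (EC n B ρ) x m ≤ ms (⋃ p ∈ s, E p) x m := by
    refine ms_mono fun y _ hy => ?_
    have hc3 : C0 n < (n + 1) * C0 n * (2 * (n + 1) * C0 n) * (CR * (2 * C1)) :=
      calc C0 n < 1 * C0 n * (2 * 1 * 1) * 1 := by linarith
        _ ≤ _ := by gcongr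
    obtain ⟨k, i, hi, hk, h3, z, hz, h4, h5, h6, h7⟩ := exists_box hρ hρ1 hM (lt_of_lt_of_le
      (mul_lt_mul_of_pos_right hc3 (by positivity)) hM') hy
    have h8 : ‖tay (τ k i) (xi y) (rc z)‖ ≤ σ := by
      refine (norm_tay_le_iff (hτ k i) hσ.le).mpr fun j => ?_
      simp only [τ, mul_inv_cancel_left₀ hσ.ne']
      split_ifs with h8 h9
      · rwa [h8]
      · rwa [h9]
      · exact h4 j
    refine Set.mem_iUnion₂.mpr ⟨(k, i), mem_filter.mpr ⟨mem_product.mpr ⟨mem_univ _, hi⟩, hk, h3⟩,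
      z, hz, h8, h8.trans ?_⟩
    rw [abs_tay (hτ k i), ← mul_div_assoc, le_div_iff₀ (hτ k i k)]
    simp only [τ, if_true, mul_inv_cancel_left₀ hσ.ne']
    linarith
  refine h3.trans ((ms_biUnion_le _ _ _ _).trans ((sum_le_card_nsmul _ _ _ h2).trans ?_))
  rw [nsmul_eq_mul]
  refine mul_le_mul_of_nonneg_right ?_ (by positivity)
  have h4 : s.card ≤ _ := card_filter_le _ _
  rw [card_product, card_univ, Fintype.card_fin, card_range] at h4
  exact_mod_cast h4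

end Pool.Agent.P.MP_728aaa_nt
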