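import Pool.Agent.P.MP_728aaa_nt.Points

namespace Pool.Agent.P.MP_728aaa_nt

open Filter Topology Polynomial

variable {n : ℕ}

theorem near {s ε : ℝ} (hs : 0 ≤ s) (hε : 0 < ε) {p : ℕ → Prop} (hp : ∀ᶠ j in atTop, p j) :
    ∃ T : ℝ, ∀ H, T < H → ∃ j, p j ∧ H ≤ 2 ^ j ∧ H ^ (-(s + 2 * ε)) ≤ pw (-(s + ε)) j := by
  obtain ⟨j0, hj0⟩ := eventually_atTop.mp
    (hp.and (tendsto_natCast_atTop_atTop.eventually_ge_atTop ((s + 2 * ε) / ε)))
  refine ⟨2 ^ j0, fun H hH => ?_⟩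
  obtain ⟨i, h1, h2⟩ := exists_nat_pow_near ((one_le_pow₀ one_le_two).trans hH.le) one_lt_two
  obtain ⟨h3, h4⟩ := hj0 (i + 1) ((pow_lt_pow_iff_right₀ one_lt_two).mp (hH.trans h2)).le
  refine ⟨i + 1, h3, h2.le, (Real.rpow_le_rpow_of_nonpos (by positivity) h1 (by linarith)).trans ?_⟩
  rw [← Real.rpow_natCast, ← Real.rpow_mul two_pos.le, mul_comm (i : ℝ)]
  refine pw_le_pw ?_
  rw [div_le_iff₀ hε] at h4
  push_cast at h4 ⊢
  nlinarith

theorem lower {s s' : ℝ} (h0 : 0 ≤ s') (h : s' < s) {C : ℝ} (hC : 0 < C) {δ : ℝ} (hδ : 0 < δ) :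
    ∀ᶠ j in atTop, 2 * pw (-s) j < δ ∧
      ∀ H, 1 ≤ H → H ≤ C * 2 ^ j → 2 * pw (-s) j ≤ H ^ (-s') := by
  filter_upwards [ev_mul_pw_le (neg_lt_neg h) (C ^ s' * 2),
    ev_mul_pw_le (show -s < 0 by linarith) (4 / δ)] with j h1 h2
  refine ⟨?_, fun H h3 h4 => le_trans ?_ (Real.rpow_le_rpow_of_nonpos (by linarith) h4
    (by linarith))⟩
  · rw [pw_zero, div_mul_eq_mul_div, div_le_one hδ] at h2
    linarith
  · rw [Real.mul_rpow hC.le (by positivity), ← Real.rpow_natCast, ← Real.rpow_mul two_pos.le,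
      mul_comm (j : ℝ), Real.rpow_neg hC.le, le_inv_mul_iff₀ (by positivity), ← mul_assoc]
    exact h1

theorem infinite_of_small {α : Type*} {S : Set α} (f : α → ℝ) (h0 : ∀ a ∈ S, 0 < f a)
    (h : ∀ δ, 0 < δ → ∃ a ∈ S, f a < δ) : S.Infinite := fun hS => by
  obtain ⟨a, ha, -⟩ := h 1 one_pos
  obtain ⟨b, hb, hmin⟩ := Set.exists_min_image S f hS ⟨a, ha⟩
  obtain ⟨c, hc, h1⟩ := h _ (h0 b hb)
  exact h1.not_ge (hmin c hc)

theorem isLUB_of {S : Set ℝ} {w : ℝ} (hw : 0 < w) (h1 : ∀ ε, 0 < ε → w + 2 * ε ∉ S)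
    (h2 : ∀ v, 0 ≤ v → v < w → v ∈ S) : IsLUB S w := by
  refine ⟨fun v hv => le_of_not_gt fun h => h1 ((v - w) / 2) (by linarith) (by
    convert hv using 1; ring), fun b hb => le_of_forall_lt_imp_le_of_dense fun v hv => ?_⟩
  exact (le_max_left v 0).trans (hb (h2 _ (le_max_right _ _) (max_lt hv hw)))

theorem hle_of_dvd {P Q : ℤ[X]} (hP : P ≠ 0) (hn : P.natDegree ≤ n) (h : Q ∣ P) {B : ℝ}
    (hB : HLe P B) : HLe Q (C0 n * B) := fun i => by
  obtain ⟨R, rfl⟩ := h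
  have h0 : 0 ≤ B := (abs_nonneg _).trans (hB 0)
  have h1 := norm_coeff_le_choose_mul_mahlerMeasure_of_one_le_mahlerMeasure i
    (Q.map (Int.castRingHom ℂ)) _ (one_le_mahlerMeasure_of_ne_zero (right_ne_zero_of_mul hP))
  rw [← Polynomial.map_mul, coeff_map, eq_intCast, Complex.norm_intCast] at h1
  have h2 : (Q.map (Int.castRingHom ℂ)).natDegree ≤ n :=
    natDegree_map_le.trans ((natDegree_le_of_dvd (dvd_mul_right Q R) hP).trans hn)
  refine h1.trans ?_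
  rw [C0, mul_comm (n + 1 : ℝ), mul_assoc]
  refine mul_le_mul ?_ ((mahlerMeasure_le_sum_norm_coeff _).trans ?_) (mahlerMeasure_nonneg _)
    (by positivity)
  · exact_mod_cast (Nat.choose_le_two_pow _ _).trans (Nat.pow_le_pow_right two_pos h2)
  · rw [sum_over_range' _ (by simp) (n + 1) (Nat.lt_succ_of_le (natDegree_map_le.trans hn))]
    refine (Finset.sum_le_card_nsmul _ _ B fun j _ => ?_).trans (by simp)
    rw [coeff_map, eq_intCast, Complex.norm_intCast]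
    exact hB j

theorem exists_minPoly {β : ℂ} {P : ℤ[X]} (hP : P ≠ 0) (h : aeval β P = 0) :
    ∃ Q, IsMinPoly β Q ∧ Q ∣ P := by
  have key : ∃ Q, Irreducible Q ∧ Q ∣ P ∧ aeval β Q = 0 := by
    induction P using WfDvdMonoid.induction_on_irreducible with
    | zero => exact absurd rfl hP
    | unit u hu => exact absurd h (hu.map (aeval β)).ne_zero
    | mul a i ha hi ih =>
      rcases mul_eq_zero.mp (map_mul (aeval β) i a ▸ h) with h1 | h1
      · exact ⟨i, hi, dvd_mul_right _ _, h1⟩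
      · obtain ⟨Q, h2, h3, h4⟩ := ih ha h1
        exact ⟨Q, h2, h3.mul_left _, h4⟩
  obtain ⟨Q, h1, h2, h3⟩ := key
  have h4 : 0 < Q.natDegree := natDegree_pos_of_aeval_root h1.ne_zero h3 fun x hx => by
    simpa using hx
  have h5 := h1.isPrimitive h4.ne'
  have h6 := (IsPrimitive.Int.irreducible_iff_irreducible_map_cast h5).mp h1
  have hmin : ∀ R, Vanishes β R → Q.natDegree ≤ R.natDegree := fun R ⟨h7, _, _, h8⟩ => by
    have h9 : ∀ T : ℤ[X], aeval β (T.map (Int.castRingHom ℚ)) = aeval β T :=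
      fun T => aeval_map_algebraMap ℚ β T
    have h10 := minpoly.eq_of_irreducible h6 ((h9 Q).trans h3)
    have h11 := natDegree_le_of_dvd (minpoly.dvd ℚ β ((h9 R).trans h8))
      ((Polynomial.map_ne_zero_iff (RingHom.injective_int _)).mpr (ne_zero_of_natDegree_gt h7))
    rwa [← h10, natDegree_mul_C (inv_ne_zero (leadingCoeff_ne_zero.mpr h6.ne_zero)),
      natDegree_map_eq_of_injective (RingHom.injective_int _),
      natDegree_map_eq_of_injective (RingHom.injective_int _)] at h11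
  rcases lt_or_gt_of_ne (leadingCoeff_ne_zero.mpr h1.ne_zero) with h7 | h7
  · refine ⟨-Q, ⟨⟨by simpa, fun r hr => h5 r (dvd_neg.mp hr), by simpa, by simpa⟩, by simpa⟩,
      neg_dvd.mpr h2⟩
  · exact ⟨Q, ⟨⟨h4, h5, h7, h3⟩, hmin⟩, h2⟩

theorem badlyApprox_xi (y : Om) : BadlyApprox (xi y) := by
  refine ⟨fun ⟨q, hq⟩ => ?_, 1 / 32, by norm_num, xi_bad y⟩
  have h := xi_bad y q.num q.den (by exact_mod_cast q.pos)
  rw [← hq, Rat.cast_def, Int.cast_natCast, sub_self, abs_zero] at h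
  have := q.pos
  exact h.not_gt (by positivity)

theorem mahler (hn : 2 ≤ n) {w : ℝ} (hw : n ≤ w) : ∃ y, IsLUB (mahlerSet n (xi y)) w := by
  obtain ⟨y, h1, h2⟩ := exists_W hn hw
  have hw0 : 0 < w := lt_of_lt_of_le (by positivity) hw
  refine ⟨y, isLUB_of hw0 (fun ε hε h => ?_) fun v hv0 hv => infinite_of_small
    (fun P => |aeval (xi y) P|) (fun _ h => h.2.1) fun δ hδ => ?_⟩
  · obtain ⟨T, hT⟩ := near hw0.le hε (h2 ε hε)
    refine h ((finite_polys n T).subset fun P ⟨h3, h4, h5⟩ => ⟨h3, (hle_ht P).mono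
      (le_of_not_gt fun h6 => ?_)⟩)
    obtain ⟨j, h7, h8, h9⟩ := hT _ h6
    exact h7 ⟨P, by rintro rfl; simp at h4, h3, (hle_ht P).mono h8, h5.trans h9⟩
  · obtain ⟨j0, hj0⟩ := eventually_atTop.mp (lower hv0 hv one_pos hδ)
    obtain ⟨j, hj, P, h3, h4, h5, h6⟩ := h1 j0
    refine ⟨P, ⟨h4, lt_of_not_ge fun h7 => ?_, h6.trans ((hj0 j hj).2 _ (one_le_ht h3)
      (by simpa using h5.ht_le))⟩, h6.trans_lt (hj0 j hj).1⟩
    obtain ⟨i, h8, h9⟩ := ((h2 1 one_pos).and (eventually_ge_atTop j)).exists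
    exact h8 ⟨P, h3, h4, h5.mono (by gcongr; simp), h7.trans (pw_pos _ _).le⟩

theorem koksma (hn : 2 ≤ n) {w : ℝ} (hw : n ≤ w) :
    ∃ y, ∀ A, Set.range Complex.ofReal ⊆ A → IsLUB (koksmaSet A n (xi y)) w := by
  obtain ⟨y, h1, h2⟩ := exists_S hn hw
  have hw0 : 0 < w := lt_of_lt_of_le (by positivity) hw
  refine ⟨y, fun A hA => isLUB_of hw0 (fun ε hε h => ?_) fun v hv0 hv => infinite_of_small
    (fun α : ℂ => ‖xi y - α‖) (fun _ ⟨_, _, h⟩ => h.2.2.1) fun δ hδ => ?_⟩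
  · obtain ⟨T, hT⟩ := near (s := w + 1) (by linarith) hε (h2 ε hε)
    refine h ((finite_roots n T).subset fun α ⟨_, P, h3, h4, h5, h6⟩ => ?_)
    have h10 := ne_zero_of_natDegree_gt h3.1.1
    refine ⟨P, h10, h4, (hle_ht P).mono (le_of_not_gt fun h11 => ?_), h3.1.2.2.2⟩
    obtain ⟨j, h7, h8, h9⟩ := hT _ h11
    exact h7 ⟨P, h10, h4, (hle_ht P).mono h8, α, h3.1.2.2.2,
      h6.trans (le_of_eq_of_le (by congr 1; ring) h9)⟩
  · obtain ⟨j0, hj0⟩ := eventually_atTop.mp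
      (lower (s := w + 1) (s' := v + 1) (by linarith) (by linarith) (C0_pos n) hδ)
    obtain ⟨j, hj, hy⟩ := h1 j0
    obtain ⟨P, h3, h4, h5, β, h6, h7⟩ := hy
    have h8 : aeval (β : ℂ) P = 0 := by
      rw [← Complex.coe_algebraMap, aeval_algebraMap_apply, h6, map_zero]
    rw [← Real.norm_eq_abs, ← Complex.norm_real, Complex.ofReal_sub] at h7
    obtain ⟨Q, h9, h10⟩ := exists_minPoly h3 h8
    refine ⟨β, ⟨hA ⟨β, rfl⟩, Q, h9, (natDegree_le_of_dvd h10 h3).trans h4,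
      lt_of_not_ge fun h11 => ?_, h7.trans (le_of_le_of_eq ((hj0 j hj).2 _
        (one_le_ht (ne_zero_of_natDegree_gt h9.1.1)) (hle_of_dvd h3 h4 h10 h5).ht_le)
        (by congr 1; ring))⟩, h7.trans_lt (hj0 j hj).1⟩
    obtain ⟨i, h12, h13⟩ := ((h2 1 one_pos).and (eventually_ge_atTop j)).exists
    exact h12 ⟨P, h3, h4, h5.mono (by gcongr; simp), β, h8, h11.trans (pw_pos _ _).le⟩

end Pool.Agent.P.MP_728aaa_nt
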