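import Mathlib

namespace Pool.Agent.P.MP_728aaa_nt

open Finset Matrix

variable {e k : ℕ}

/-- A maximal minor of a tuple of vectors. -/
def minor {R : Type*} [CommRing R] (v : Fin k → Fin e → R) (f : Fin k → Fin e) : R :=
  (Matrix.of fun a b => v a (f b)).det

/-- The largest maximal minor of a tuple of vectors. -/
noncomputable def Psi (v : Fin k → Fin (e + 1) → ℝ) : ℝ := ⨆ f, |minor v f|

theorem abs_minor_le (v : Fin k → Fin (e + 1) → ℝ) (f : Fin k → Fin (e + 1)) :
    |minor v f| ≤ Psi v :=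
  le_ciSup (f := fun f => |minor v f|) (Finite.bddAbove_range _) f

theorem exists_psi (v : Fin k → Fin (e + 1) → ℝ) : ∃ f, |minor v f| = Psi v :=
  exists_eq_ciSup_of_finite

theorem psi_nonneg (v : Fin k → Fin (e + 1) → ℝ) : 0 ≤ Psi v :=
  (abs_nonneg _).trans (abs_minor_le v fun _ => 0)

theorem psi_zero (v : Fin 0 → Fin (e + 1) → ℝ) : Psi v = 1 := by
  obtain ⟨f, hf⟩ := exists_psi v
  rw [← hf, minor, det_isEmpty, abs_one]

theorem psi_succ_le (v : Fin (k + 1) → Fin (e + 1) → ℝ) :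
    Psi v ≤ (k + 1) * ‖v 0‖ * Psi fun i => v i.succ := by
  obtain ⟨f, hf⟩ := exists_psi v
  rw [← hf, minor, det_succ_row_zero]
  refine (abs_sum_le_sum_abs _ _).trans ((sum_le_card_nsmul _ _
    (‖v 0‖ * Psi fun i => v i.succ) fun j _ => ?_).trans ?_)
  · rw [abs_mul, abs_mul, abs_pow, abs_neg, abs_one, one_pow, one_mul]
    exact mul_le_mul (norm_le_pi_norm (v 0) (f j))
      (abs_minor_le (fun i => v i.succ) fun b => f (j.succAbove b)) (abs_nonneg _) (norm_nonneg _)
  · simp [mul_assoc]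

theorem psi_le_prod (v : Fin k → Fin (e + 1) → ℝ) : Psi v ≤ k.factorial * ∏ i, ‖v i‖ := by
  induction k with
  | zero => simp [psi_zero]
  | succ k ih =>
    refine (psi_succ_le v).trans ?_
    rw [Fin.prod_univ_succ, Nat.factorial_succ]
    push_cast
    have := mul_le_mul_of_nonneg_left (ih fun i => v i.succ)
      (show 0 ≤ (k + 1 : ℝ) * ‖v 0‖ by positivity)
    linarith

theorem minor_comb {R : Type*} [CommRing R] (U : Matrix (Fin k) (Fin k) R)
    (v : Fin k → Fin e → R) (f : Fin k → Fin e) :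
    minor (fun i => ∑ j, U i j • v j) f = U.det * minor v f := by
  rw [minor, minor, ← det_mul]
  congr 1
  ext a b
  simp [mul_apply]

theorem psi_comb (U : Matrix (Fin k) (Fin k) ℝ) (v : Fin k → Fin (e + 1) → ℝ) :
    Psi (fun i => ∑ j, U i j • v j) = |U.det| * Psi v := by
  simp only [Psi, minor_comb, abs_mul]
  rw [Real.mul_iSup_of_nonneg (abs_nonneg _)]

theorem psi_pos_iff {v : Fin k → Fin (e + 1) → ℝ} : 0 < Psi v ↔ LinearIndependent ℝ v := by
  constructor
  · intro h
    obtain ⟨f, hf⟩ := exists_psi v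
    have h1 : IsUnit (Matrix.of fun a b => v a (f b)) := by
      rw [isUnit_iff_isUnit_det, isUnit_iff_ne_zero]
      exact abs_pos.mp (hf ▸ h)
    exact (linearIndependent_rows_iff_isUnit.mpr h1).of_comp (LinearMap.funLeft ℝ ℝ f)
  · intro h
    obtain ⟨κ, a, ha, h1, h2⟩ := exists_linearIndependent' ℝ (Matrix.of v).col
    have := Finite.of_injective a ha
    have := Fintype.ofFinite κ
    have h3 : Fintype.card κ = k := by
      rw [← finrank_span_eq_card h2, h1, ← rank_eq_finrank_span_cols,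
        LinearIndependent.rank_matrix (M := Matrix.of v) h, Fintype.card_fin]
    let σ := (Fintype.equivFinOfCardEq h3).symm
    have h4 : IsUnit (Matrix.of fun i b => v i (a (σ b))) :=
      linearIndependent_cols_iff_isUnit.mp (h2.comp σ σ.injective)
    rw [isUnit_iff_isUnit_det, isUnit_iff_ne_zero] at h4
    exact (abs_pos.mpr h4).trans_le (abs_minor_le v fun b => a (σ b))

theorem abs_mul_psi_le (v : Fin k → Fin (e + 1) → ℝ) (x : Fin k → ℝ) (i : Fin k) :
    |x i| * Psi v ≤ k.factorial * (‖∑ j, x j • v j‖ * ∏ j ∈ univ.erase i, ‖v j‖) := by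
  have h1 := psi_comb ((1 : Matrix (Fin k) (Fin k) ℝ).updateRow i x) v
  have h2 : ((1 : Matrix (Fin k) (Fin k) ℝ).updateRow i x).det = x i := by
    have := det_updateRow_sum (1 : Matrix (Fin k) (Fin k) ℝ) i x
    rw [det_one, smul_eq_mul, mul_one] at this
    rw [← this]
    congr 2
    ext j
    simp [one_apply]
  rw [← h2, ← h1]
  refine (psi_le_prod _).trans (le_of_eq ?_)
  rw [← mul_prod_erase _ _ (mem_univ i), updateRow_self]
  congr 2
  refine prod_congr rfl fun j hj => ?_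
  simp [updateRow_ne (ne_of_mem_erase hj), one_apply]

theorem exists_unimodular {x : Fin (k + 1) → ℤ} (hx : x ≠ 0) :
    ∃ (B : Matrix (Fin (k + 1)) (Fin (k + 1)) ℤ) (m : ℤ), IsUnit B.det ∧ x = m • B 0 := by
  obtain ⟨n, snf⟩ := Submodule.smithNormalForm (Pi.basisFun ℤ (Fin (k + 1)))
    (Submodule.span ℤ {x})
  have hn : n = 1 := by
    have h1 := Module.finrank_eq_card_basis snf.bN
    have h2 := finrank_span_eq_card (R := ℤ) (b := fun _ : Unit => x)
      (linearIndependent_unique_iff.mpr hx)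
    rw [Set.range_const] at h2
    rw [h2] at h1
    simpa using h1.symm
  subst hn
  let b := snf.bM.reindex (Equiv.swap 0 (snf.f 0))
  have h1 := congrArg Subtype.val (snf.bN.sum_repr ⟨x, Submodule.mem_span_singleton_self x⟩)
  simp only [univ_unique, sum_singleton, SetLike.val_smul, snf.snf, smul_smul] at h1
  have h3 : Matrix.of b 0 = snf.bM (snf.f default) := by
    ext j
    simp [b]
  refine ⟨Matrix.of b, _, ?_, h1.symm.trans (by rw [h3])⟩
  · have h2 := (Pi.basisFun ℤ (Fin (k + 1))).isUnit_det b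
    rw [Module.Basis.det_apply] at h2
    rw [← det_transpose]
    exact h2

theorem exists_short {a : Fin (k + 1) → Fin e → ℝ} (ha : LinearIndependent ℝ a) :
    ∃ x : Fin (k + 1) → ℤ, x ≠ 0 ∧ ∀ z : Fin (k + 1) → ℤ, z ≠ 0 →
      ‖∑ j, (x j : ℝ) • a j‖ ≤ 3 / 2 * ‖∑ j, (z j : ℝ) • a j‖ := by
  obtain ⟨K, hK, hanti⟩ := (Fintype.linearCombination ℝ a).exists_antilipschitzWith
    (LinearMap.ker_eq_bot.mpr (linearIndependent_iff_injective_fintypeLinearCombination.mp ha))
  let s : Set ℝ := {r | ∃ z : Fin (k + 1) → ℤ, z ≠ 0 ∧ ‖∑ j, (z j : ℝ) • a j‖ = r}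
  have hK' : (0 : ℝ) < K := hK
  have h1 : ∀ r ∈ s, (K : ℝ)⁻¹ ≤ r := by
    rintro _ ⟨z, hz, rfl⟩
    obtain ⟨j, hj⟩ := Function.ne_iff.mp hz
    have h2 := hanti.le_mul_norm (map_zero _) fun j => (z j : ℝ)
    have h3 := norm_le_pi_norm (fun j => (z j : ℝ)) j
    have h4 : (1 : ℝ) ≤ |(z j : ℝ)| := by exact_mod_cast Int.one_le_abs hj
    rw [Fintype.linearCombination_apply] at h2
    rw [inv_le_iff_one_le_mul₀' hK']
    exact h4.trans (h3.trans h2)
  have hne : s.Nonempty := ⟨_, Pi.single 0 1, by simp, rfl⟩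
  have h2 : 0 < sInf s := (inv_pos.mpr hK').trans_le (le_csInf hne h1)
  obtain ⟨_, ⟨x, hx, rfl⟩, h3⟩ := exists_lt_of_csInf_lt hne (show sInf s < 3 / 2 * sInf s by linarith)
  refine ⟨x, hx, fun z hz => h3.le.trans ?_⟩
  have := csInf_le ⟨_, h1⟩ (show _ ∈ s from ⟨z, hz, rfl⟩)
  linarith

/-- Hermite's reduction: a weak form of Minkowski's second theorem. -/
theorem hermite (k : ℕ) : ∀ a : Fin k → Fin (e + 1) → ℝ, LinearIndependent ℝ a →
    ∃ U : Matrix (Fin k) (Fin k) ℤ, U.det ≠ 0 ∧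
      ∏ i, ‖∑ j, (U i j : ℝ) • a j‖ ≤ 4 ^ (k * k) * Psi a := by
  induction k with
  | zero => exact fun a _ => ⟨1, by simp, by simp [psi_zero]⟩
  | succ k ih =>
    have key : ∀ a : Fin (k + 1) → Fin (e + 1) → ℝ, LinearIndependent ℝ a →
        (∀ z : Fin (k + 1) → ℤ, z ≠ 0 → ‖a 0‖ ≤ 3 / 2 * ‖∑ j, (z j : ℝ) • a j‖) →
        ∃ U : Matrix (Fin (k + 1)) (Fin (k + 1)) ℤ, U.det ≠ 0 ∧
          ∏ i, ‖∑ j, (U i j : ℝ) • a j‖ ≤ 4 ^ ((k + 1) * (k + 1)) * Psi a := by
      intro a ha hshort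
      obtain ⟨i0, hi0⟩ : ∃ i0, ‖a 0‖ = |a 0 i0| := by
        obtain ⟨i0, -, hi0⟩ := exists_max_image univ (fun i => |a 0 i|) univ_nonempty
        exact ⟨i0, le_antisymm ((pi_norm_le_iff_of_nonneg (abs_nonneg _)).mpr fun i =>
          hi0 i (mem_univ _)) (norm_le_pi_norm (a 0) i0)⟩
      have h0 : a 0 i0 ≠ 0 := abs_pos.mp (hi0 ▸ norm_pos_iff.mpr (ha.ne_zero 0))
      let a' : Fin k → Fin (e + 1) → ℝ := fun i => a i.succ - (a i.succ i0 / a 0 i0) • a 0
      have hm : ∀ f, minor a f = minor (Fin.cons (a 0) a' : Fin (k + 1) → _) f := fun f =>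
        det_eq_of_forall_row_eq_smul_add_const
          (Fin.cons 0 fun i => a i.succ i0 / a 0 i0) 0 rfl fun i j => by
            refine Fin.cases ?_ (fun i => ?_) i <;> simp [a']
      have h1 : Psi a = Psi (Fin.cons (a 0) a' : Fin (k + 1) → _) := by simp only [Psi, hm]
      have h2 : LinearIndependent ℝ a' :=
        (linearIndependent_finCons.mp (psi_pos_iff.mp (h1 ▸ psi_pos_iff.mpr ha))).1
      have h3 : ‖a 0‖ * Psi a' ≤ Psi a := by
        obtain ⟨f, hf⟩ := exists_psi a'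
        refine le_trans (le_of_eq ?_) (abs_minor_le a (Fin.cons i0 f))
        rw [hm, minor, det_succ_column_zero, Fin.sum_univ_succ, sum_eq_zero fun i _ => by
          simp [a', h0], hi0, ← hf, ← abs_mul]
        simp [minor, submatrix]
      obtain ⟨U, hU, hprod⟩ := ih a' h2
      let s : Fin k → ℝ := fun i => ∑ j, U i j * (a j.succ i0 / a 0 i0)
      let U' : Matrix (Fin (k + 1)) (Fin (k + 1)) ℤ :=
        Matrix.of (Fin.cons (Fin.cons 1 0) fun i => Fin.cons (-round (s i)) (U i))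
      have h4 : ∀ i : Fin k, ‖∑ j, (U' i.succ j : ℝ) • a j‖ ≤ 4 * ‖∑ j, (U i j : ℝ) • a' j‖ := by
        intro i
        have h5 := hshort (U' i.succ) fun h => hU (det_eq_zero_of_row_eq_zero i fun j => by
          simpa [U'] using congrFun h j.succ)
        have h6 : ∑ j, (U' i.succ j : ℝ) • a j =
            ∑ j, (U i j : ℝ) • a' j + (s i - round (s i)) • a 0 := by
          simp only [U', a', s, Fin.sum_univ_succ, of_apply, Fin.cons_succ, Fin.cons_zero,
            smul_sub, sum_sub_distrib, smul_smul, sub_smul, sum_smul, Int.cast_neg, neg_smul]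
          abel
        have h7 := norm_add_le (∑ j, (U i j : ℝ) • a' j) ((s i - round (s i)) • a 0)
        have h8 := mul_le_mul_of_nonneg_right (abs_sub_round (s i)) (norm_nonneg (a 0))
        rw [← h6, norm_smul, Real.norm_eq_abs] at h7
        linarith
      refine ⟨U', ?_, ?_⟩
      · rw [det_succ_row_zero, Fin.sum_univ_succ]
        have h5 : U'.submatrix Fin.succ (Fin.succAbove 0) = U := by
          ext i j
          simp [U']
        rw [h5]
        simpa [U'] using hU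
      · have h5 : ∑ j, (U' 0 j : ℝ) • a j = a 0 := by simp [U', Fin.sum_univ_succ]
        have h6 := prod_le_prod (s := univ) (fun i _ => norm_nonneg _) fun i _ => h4 i
        rw [prod_mul_distrib, prod_const, card_univ, Fintype.card_fin] at h6
        rw [Fin.prod_univ_succ, h5]
        have h7 : (4 : ℝ) ^ k * 4 ^ (k * k) ≤ 4 ^ ((k + 1) * (k + 1)) := by
          rw [← pow_add]
          exact pow_le_pow_right₀ (by norm_num) (by nlinarith)
        calc _ ≤ ‖a 0‖ * (4 ^ k * (4 ^ (k * k) * Psi a')) := by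
              gcongr
              exact h6.trans (by gcongr)
          _ = 4 ^ k * 4 ^ (k * k) * (‖a 0‖ * Psi a') := by ring
          _ ≤ _ := mul_le_mul h7 h3 (mul_nonneg (norm_nonneg _) (psi_nonneg _)) (by positivity)
    intro a ha
    obtain ⟨x, hx, hshort⟩ := exists_short ha
    obtain ⟨B, m, hB, rfl⟩ := exists_unimodular hx
    have hdet : |(B.map (Int.cast : ℤ → ℝ)).det| = 1 := by
      rw [← Int.cast_det, ← Int.cast_abs, Int.isUnit_iff_abs_eq.mp hB, Int.cast_one]
    have h1 : Psi (fun i => ∑ j, (B i j : ℝ) • a j) = Psi a := by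
      have := psi_comb (B.map (Int.cast : ℤ → ℝ)) a
      rwa [hdet, one_mul] at this
    have hcomb : ∀ z : Fin (k + 1) → ℤ, ∑ i, (z i : ℝ) • ∑ j, (B i j : ℝ) • a j =
        ∑ j, ((z ᵥ* B) j : ℝ) • a j := by
      intro z
      simp only [smul_sum, smul_smul, vecMul, dotProduct, Int.cast_sum, Int.cast_mul, sum_smul]
      exact sum_comm
    obtain ⟨U, hU, hprod⟩ := key _ (psi_pos_iff.mp (h1 ▸ psi_pos_iff.mpr ha)) fun z hz => by
      rw [hcomb]
      refine le_trans ?_ (hshort _ fun h => hz (eq_zero_of_vecMul_eq_zero hB.ne_zero h))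
      have h2 : (1 : ℝ) ≤ |(m : ℝ)| := by
        exact_mod_cast Int.one_le_abs (left_ne_zero_of_smul hx)
      have h3 : ∑ j, (((m • B 0) j : ℤ) : ℝ) • a j = (m : ℝ) • ∑ j, (B 0 j : ℝ) • a j := by
        simp [smul_sum, smul_smul]
      rw [h3, norm_smul, Real.norm_eq_abs]
      exact le_mul_of_one_le_left (norm_nonneg _) h2
    refine ⟨U * B, by rw [det_mul]; exact mul_ne_zero hU hB.ne_zero, ?_⟩
    rw [← h1]
    refine le_trans (le_of_eq (prod_congr rfl fun i _ => ?_)) hprod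
    rw [hcomb]
    rfl

end Pool.Agent.P.MP_728aaa_nt
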