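import Pool.Agent.P.MP_728aaa_nt.Assembly
import Pool.Agent.P.MP_728aaa_nt.Defs

namespace Pool.Agent.P.MP_728aaa_nt

open Filter Topology Polynomial

variable {n : ℕ}

theorem finite_polys (n : ℕ) (B : ℝ) : {P : ℤ[X] | P.natDegree ≤ n ∧ HLe P B}.Finite := by
  have h : (Set.pi Set.univ fun _ : Fin (n + 1) => Set.Icc (-⌊B⌋) ⌊B⌋).Finite :=
    Set.Finite.pi fun _ => Set.finite_Icc _ _
  refine (h.image pz).subset fun P ⟨h1, h2⟩ => ⟨fun i => P.coeff i, fun i _ => ?_, ?_⟩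
  · exact abs_le.mp (Int.le_floor.mpr (by simpa using h2 i))
  · ext i
    rcases lt_or_ge i (n + 1) with hi | hi
    · exact ofFn_coeff_eq_val_of_lt _ hi
    · rw [pz, ofFn_coeff_eq_zero_of_ge _ hi, coeff_eq_zero_of_natDegree_lt (by omega)]

theorem finite_roots (n : ℕ) (B : ℝ) :
    {β : ℂ | ∃ P : ℤ[X], P ≠ 0 ∧ P.natDegree ≤ n ∧ HLe P B ∧ aeval β P = 0}.Finite :=
  ((finite_polys n B).biUnion fun P _ => rootSet_finite P ℂ).subset fun _ ⟨P, h1, h2, h3, h4⟩ =>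
    Set.mem_biUnion (x := P) ⟨h2, h3⟩ (mem_rootSet.mpr ⟨h1, h4⟩)

theorem continuous_val (P : ℤ[X]) : Continuous fun y => |aeval (xi y) P| :=
  (P.continuous_aeval.comp continuous_xi).abs

theorem isClosed_EW (B ρ : ℝ) : IsClosed (EW n B ρ) := by
  convert ((finite_polys n B).sep (· ≠ 0)).isClosed_biUnion
    fun P _ => isClosed_le (continuous_val P) (continuous_const (y := ρ)) using 1
  ext y
  simp only [EW, Set.mem_ofPred_eq, Set.mem_iUnion]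
  exact ⟨fun ⟨P, h1, h2, h3, h4⟩ => ⟨P, ⟨⟨h2, h3⟩, h1⟩, h4⟩,
    fun ⟨P, ⟨⟨h2, h3⟩, h1⟩, h4⟩ => ⟨P, h1, h2, h3, h4⟩⟩

theorem isClosed_EC (B ρ : ℝ) : IsClosed (EC n B ρ) := by
  convert (finite_roots n B).isClosed_biUnion fun β _ => isClosed_le
    ((Complex.continuous_ofReal.comp continuous_xi).sub (continuous_const (y := β))).norm
    (continuous_const (y := ρ)) using 1
  ext y
  simp only [EC, Set.mem_ofPred_eq, Set.mem_iUnion]
  exact ⟨fun ⟨P, h1, h2, h3, β, h4, h5⟩ => ⟨β, ⟨P, h1, h2, h3, h4⟩, h5⟩,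
    fun ⟨β, ⟨P, h1, h2, h3, h4⟩, h5⟩ => ⟨P, h1, h2, h3, β, h4, h5⟩⟩

theorem EW_open (B ρ ρ' : ℝ) (h : ρ < ρ') : EW n B ρ ⊆ interior (EW n B ρ') :=
  fun _ ⟨P, h1, h2, h3, h4⟩ => mem_interior.mpr ⟨_, fun _ hz => ⟨P, h1, h2, h3, le_of_lt hz⟩,
    isOpen_lt (continuous_val P) continuous_const, h4.trans_lt h⟩

theorem ER_open (B ρ ρ' : ℝ) (h : ρ < ρ') : ER n B ρ ⊆ interior (ER n B ρ') :=
  fun _ ⟨P, h1, h2, h3, β, h4, h5⟩ => mem_interior.mpr ⟨_,
    fun _ hz => ⟨P, h1, h2, h3, β, h4, le_of_lt hz⟩,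
    isOpen_lt (continuous_xi.sub continuous_const).abs continuous_const, h5.trans_lt h⟩

theorem hle_ht (P : ℤ[X]) : HLe P (ht P) := fun i => by
  by_cases h : i ∈ P.support
  · rw [← Int.cast_abs, ← Int.natCast_natAbs, Int.cast_natCast, Nat.cast_le]
    exact Finset.le_sup (f := fun i => (P.coeff i).natAbs) h
  · simp [notMem_support_iff.mp h]

theorem HLe.ht_le {P : ℤ[X]} {B : ℝ} (h : HLe P B) : ht P ≤ B := by
  have h0 : 0 ≤ B := (abs_nonneg _).trans (h 0)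
  rw [← Nat.le_floor_iff h0]
  refine Finset.sup_le fun i _ => (Nat.le_floor_iff h0).mpr ?_
  simpa using h i

theorem one_le_ht {P : ℤ[X]} (h : P ≠ 0) : (1 : ℝ) ≤ ht P := by
  refine le_trans ?_ (hle_ht P P.natDegree)
  exact_mod_cast Int.one_le_abs (leadingCoeff_ne_zero.mpr h)

theorem summable_of_seq {η : ℕ → ℝ} (h0 : ∀ j, 0 ≤ η j)
    (h : Summable fun j : ℕ => (j + 1) * η j) : Summable η :=
  h.of_nonneg_of_le h0 fun j => le_mul_of_one_le_left (h0 j) (by simp)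

theorem div_le_div_sq {C κ : ℝ} (hC : 1 ≤ C) (h0 : 0 < κ) (h1 : κ ≤ 1) : C / κ ≤ C / κ ^ 2 := by
  gcongr
  exact pow_le_of_le_one h0.le h1 two_ne_zero

theorem pw_le_two_pow {t : ℝ} (ht : 0 ≤ t) (j : ℕ) : pw (-t) j ≤ 2 ^ j :=
  (pw_le_one (by linarith) j).trans (one_le_pow₀ one_le_two)

theorem gen_EW (n : ℕ) {ε : ℝ} (hε : 0 < ε) : ∃ a : ℕ → ℝ, Summable a ∧
    ∀ᶠ j in atTop, mu.real (EW n (2 ^ j) (pw (-(n + ε)) j)) ≤ a j := by
  obtain ⟨C, hC, h⟩ := genW n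
  obtain ⟨κ, η, h1, h2, h3, h4, h5, h6⟩ := exists_seq n (δ := ε / (n + 1)) (by positivity)
  refine ⟨η, summable_of_seq h4 h6, (h5 C).mono fun j hj => h _ _ (h1 j) (h2 j) (h3 j) _ _
    (pw_pos _ _) (pw_le_two_pow (by positivity) j) (one_le_pow₀ one_le_two) ?_⟩
  have h7 := (div_le_div_sq hC (h2 j) (h3 j)).trans hj
  have h8 := h2 j
  have h9 := pw_pos (-(n + ε)) j
  calc _ ≤ pw (ε / (n + 1)) j ^ (n + 1) * (pw (-(n + ε)) j * (2 ^ j) ^ n) := by gcongr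
    _ = 1 := by
      rw [← pw_one, pw_pow, pw_pow, ← pw_add, ← pw_add]
      refine (congrArg (pw · j) ?_).trans (pw_zero j)
      push_cast
      field_simp
      ring

theorem exists_W (hn : 2 ≤ n) {w : ℝ} (hw : n ≤ w) :
    ∃ y, (∀ j0, ∃ j, j0 ≤ j ∧ y ∈ EW n (2 ^ j) (2 * pw (-w) j)) ∧
      ∀ ε : ℝ, 0 < ε → ∀ᶠ j in atTop, y ∉ EW n (2 ^ j) (pw (-(w + ε)) j) := by
  refine abstract (EW n) (EW n) (le_trans (by positivity) hw) (fun _ _ _ => EW_mono le_rfl)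
    (fun _ _ _ _ => EW_mono) isClosed_EW EW_open (fun t δ ht hδ => ?_) (fun ε hε => ?_)
    fun x m => ?_
  · obtain ⟨C, hC, h⟩ := dichW n
    obtain ⟨κ, η, h1, h2, h3, h4, h5, h6⟩ := exists_seq n hδ
    refine ⟨η, summable_of_seq h4 h6, (h5 C).mono fun j hj x m => (h _ _ (h1 j) (h2 j) _ _
      (pw_pos _ _) (pw_le_two_pow ht.le j) x m).imp_right fun h7 => ?_⟩
    have h8 := (div_le_div_sq hC (h2 j) (h3 j)).trans hj
    have h9 := pw_pos (-t) j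
    exact (ms_eq_zero fun y hy => not_not.mpr (EW_mono (by gcongr) (by gcongr) (h7 y hy))).trans_le
      (by positivity)
  · obtain ⟨a, ha, h⟩ := gen_EW n hε
    exact ⟨a, ha, h.mono fun j hj => le_trans (MeasureTheory.measureReal_mono
      (EW_mono le_rfl (pw_mono (by linarith) j))) hj⟩
  · obtain ⟨y, hy, Q, h1, h2, h3⟩ := exists_quadratic x m
    exact ⟨y, hy, _, Q, h1, h2.trans hn, hle_ht Q, by simp [h3]⟩

theorem exists_S (hn : 2 ≤ n) {w : ℝ} (hw : n ≤ w) :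
    ∃ y, (∀ j0, ∃ j, j0 ≤ j ∧ y ∈ ER n (2 ^ j) (2 * pw (-(w + 1)) j)) ∧
      ∀ ε : ℝ, 0 < ε → ∀ᶠ j in atTop, y ∉ EC n (2 ^ j) (pw (-(w + 1 + ε)) j) := by
  have hw0 : 0 ≤ w := le_trans (by positivity) hw
  refine abstract (EC n) (ER n) (by positivity) (fun _ _ _ => EC_mono le_rfl)
    (fun _ _ _ _ => ER_mono) isClosed_EC ER_open (fun t δ ht hδ => ?_) (fun ε hε => ?_)
    fun x m => ?_
  · obtain ⟨C, hC, h⟩ := dichS n
    obtain ⟨κ, η, h1, h2, h3, h4, h5, h6⟩ := exists_seq n hδ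
    obtain ⟨D, hD⟩ := pow_unbounded_of_one_lt C (one_lt_two (α := ℝ))
    obtain ⟨D', hD'⟩ := exists_nat_ge (t * n)
    refine ⟨fun j => (n + 1) * (2 * (D + D' + 1)) * ((j + 1) * η j), h6.mul_left _, ?_⟩
    filter_upwards [h5 C, (summable_of_seq h4 h6).tendsto_atTop_zero.eventually_le_const
      one_half_pos] with j hj hj' x m
    have h9 := pw_pos (-t) j
    refine (h _ _ (h1 j) (h2 j) (h3 j) (h4 j) (2 ^ j) (pw (-t) j) ((D + D' + 1) * (j + 1))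
      (one_le_pow₀ one_le_two) h9 (pw_le_one (by linarith) j) ?_ ?_ x m).imp
      (fun h7 => h7.trans (le_of_eq (by push_cast; ring))) fun h7 => le_trans (ms_mono
        fun y _ hy hy' => hy (ER_mono (by gcongr) (by gcongr) hy')) (h7.trans (by gcongr))
    · rw [one_div_pow, one_div, ← pw_one, ← pw_neg, pw_pow]
      refine pw_le_pw ?_
      have h10 : t * n * j ≤ D' * j := by gcongr
      push_cast
      nlinarith [Nat.cast_nonneg (α := ℝ) D, Nat.cast_nonneg (α := ℝ) D', Nat.cast_nonneg (α := ℝ) j]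
    · calc C * 2 ^ j ≤ 2 ^ D * 2 ^ j := by gcongr
        _ ≤ _ := by
          rw [← pow_add]
          exact pow_le_pow_right₀ one_le_two (by nlinarith)
  · obtain ⟨a, ha, h⟩ := gen_EW n (half_pos hε)
    refine ⟨a, ha, ?_⟩
    filter_upwards [h, ev_mul_pw_le (show -(w + ε) < -(n + ε / 2) by linarith) (n * C0 n)]
      with j hj hj'
    refine le_trans (MeasureTheory.measureReal_mono (ER_subset_EC.trans ((EC_subset_EW
      (pw_le_one (by linarith) j)).trans (EW_mono le_rfl (le_trans (le_of_eq ?_) hj'))))) hj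
    rw [← pw_one, mul_assoc (C0 n), ← pw_add, mul_assoc]
    congr 3
    ring
  · obtain ⟨y, hy, Q, h1, h2, h3⟩ := exists_quadratic x m
    exact ⟨y, hy, _, Q, h1, h2.trans hn, hle_ht Q, _, h3, by simp⟩

end Pool.Agent.P.MP_728aaa_nt
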