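import Pool.Agent.P.MP_728aaa_nt.Cantor
import Pool.Agent.P.MP_728aaa_nt.Minors

namespace Pool.Agent.P.MP_728aaa_nt

open Finset Polynomial

variable {n k : ℕ}

/-- Real coordinate space. -/
abbrev RV (n : ℕ) : Type := Fin (n + 1) → ℝ

/-- Integer coordinate space. -/
abbrev ZV (n : ℕ) : Type := Fin (n + 1) → ℤ

/-- Integer vectors as real vectors. -/
def rc (z : ZV n) : RV n := fun i => z i

/-- Independent tuples of integer vectors. -/
def Ind (v : Fin k → ZV n) : Prop := LinearIndependent ℝ fun i => rc (v i)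

theorem Ind.le {v : Fin k → ZV n} (h : Ind v) : k ≤ n + 1 := by
  simpa using LinearIndependent.fintype_card_le_finrank h

theorem Ind.ne_zero {v : Fin k → ZV n} (h : Ind v) (i : Fin k) : v i ≠ 0 := fun h0 =>
  LinearIndependent.ne_zero i h (by ext j; simp [rc, h0])

theorem Ind.sub {v : Fin k → ZV n} (h : Ind v) (S : Finset (Fin k)) :
    ∃ (l : ℕ) (w : Fin l → ZV n), Ind w ∧ (∀ j, ∃ i ∈ S, w j = v i) ∧
      ∀ g : ZV n → ℝ, ∏ j, g (w j) = ∏ i ∈ S, g (v i) :=
  ⟨_, fun j => v (S.equivFin.symm j),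
    LinearIndependent.comp h _ (Subtype.val_injective.comp S.equivFin.symm.injective),
    fun j => ⟨_, (S.equivFin.symm j).2, rfl⟩, fun g => by
      rw [← prod_coe_sort S, ← S.equivFin.symm.prod_comp]⟩

theorem ind_single {z : ZV n} (hz : z ≠ 0) : Ind fun _ : Fin 1 => z :=
  linearIndependent_unique_iff.mpr fun h => hz (funext fun i => by
    simpa [rc] using congrFun h i)

theorem rc_comb (u : Fin k → ℤ) (v : Fin k → ZV n) :
    rc (∑ j, u j • v j) = ∑ j, (u j : ℝ) • rc (v j) := by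
  ext i
  simp [rc]

theorem hermite_int {h : RV n →ₗ[ℝ] RV n} (hinj : Function.Injective h) {v : Fin k → ZV n}
    (hv : Ind v) : ∃ b : Fin k → ZV n, Ind b ∧
      ∏ i, ‖h (rc (b i))‖ ≤ 4 ^ ((n + 1) * (n + 1)) * Psi fun i => h (rc (v i)) := by
  obtain ⟨U, hU, hp⟩ := hermite k _ (LinearIndependent.map' hv h (LinearMap.ker_eq_bot.mpr hinj))
  refine ⟨fun i => ∑ j, U i j • v j, psi_pos_iff.mp ?_, ?_⟩
  · simp only [rc_comb]
    have h1 := psi_comb (U.map (Int.cast : ℤ → ℝ)) fun i => rc (v i)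
    rw [← Int.cast_det] at h1
    exact h1 ▸ mul_pos (abs_pos.mpr (Int.cast_ne_zero.mpr hU)) (psi_pos_iff.mpr hv)
  · simp only [rc_comb, map_sum, map_smul]
    exact hp.trans (mul_le_mul_of_nonneg_right (pow_le_pow_right₀ (by norm_num)
      (Nat.mul_le_mul hv.le hv.le)) (psi_nonneg _))

/-- The real span of an integer tuple. -/
def sp (v : Fin k → ZV n) : Submodule ℝ (RV n) := Submodule.span ℝ (Set.range fun i => rc (v i))

theorem exists_min_basis (V : Submodule ℝ (RV n)) : ∃ (k : ℕ) (b : Fin k → ZV n), Ind b ∧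
    ∀ (l : ℕ) (v : Fin l → ZV n), Ind v → sp v = V → sp b = V ∧
      ∀ h : RV n →ₗ[ℝ] RV n, (Psi fun i => h (rc (b i))) ≤ Psi fun i => h (rc (v i)) := by
  classical
  by_cases hV : ∃ (l : ℕ) (v : Fin l → ZV n), Ind v ∧ sp v = V
  swap
  · exact ⟨0, fun i => i.elim0, linearIndependent_empty_type, fun l v h1 h2 =>
      absurd ⟨l, v, h1, h2⟩ hV⟩
  obtain ⟨k, v0, h1, h2⟩ := hV
  have hnat : ∀ v : Fin k → ZV n, ∃ m : ℕ, (Psi fun i => rc (v i)) = m := fun v => by
    obtain ⟨f, hf⟩ := exists_psi fun i => rc (v i)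
    refine ⟨(minor v f).natAbs, ?_⟩
    rw [← hf, Nat.cast_natAbs, Int.cast_abs, minor, minor, Int.cast_det]
    rfl
  have hex : ∃ m : ℕ, ∃ b : Fin k → ZV n, Ind b ∧ sp b = V ∧ (Psi fun i => rc (b i)) = m := by
    obtain ⟨m, hm⟩ := hnat v0
    exact ⟨m, v0, h1, h2, hm⟩
  obtain ⟨b, hb1, hb2, hb3⟩ := Nat.find_spec hex
  refine ⟨k, b, hb1, fun l v hv1 hv2 => ⟨hb2, fun h => ?_⟩⟩
  obtain rfl : l = k := by
    have h3 := finrank_span_eq_card hv1
    have h4 := finrank_span_eq_card hb1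
    rw [show Submodule.span ℝ _ = V from hv2] at h3
    rw [show Submodule.span ℝ _ = V from hb2, h3] at h4
    simpa using h4
  have h3 : ∀ i, ∃ u : Fin l → ℝ, ∑ j, u j • rc (b j) = rc (v i) := fun i =>
    (Submodule.mem_span_range_iff_exists_fun ℝ).mp (by
      rw [show Submodule.span ℝ _ = V from hb2, ← hv2]
      exact Submodule.subset_span ⟨i, rfl⟩)
  choose U hU using h3
  obtain ⟨m, hm⟩ := hnat v
  have h4 := psi_comb (Matrix.of U) fun i => rc (b i)
  have h5 := psi_comb (Matrix.of U) fun i => h (rc (b i))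
  have h6 : (Nat.find hex : ℝ) ≤ m := by exact_mod_cast Nat.find_min' hex ⟨v, hv1, hv2, hm⟩
  simp only [Matrix.of_apply, hU, ← map_smul, ← map_sum] at h4 h5
  rw [← hb3, ← hm, h4] at h6
  rw [h5]
  exact le_mul_of_one_le_left (psi_nonneg _)
    (le_of_mul_le_mul_right (by rwa [one_mul]) (psi_pos_iff.mpr hb1))

/-- Families of linear maps depending polynomially on the point of the Cantor set. -/
structure Adm (h : Om → RV n →ₗ[ℝ] RV n) : Prop where
  poly : ∀ v i, ∃ p : ℝ[X], p.natDegree ≤ n ∧ ∀ y, h y v i = p.eval (xi y)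
  inj : ∀ y, Function.Injective (h y)
  low : ∃ c, 0 < c ∧ ∀ y z, z ≠ 0 → c ≤ ‖h y (rc z)‖

theorem natDegree_minor_le {P : Fin k → Fin (n + 1) → ℝ[X]} (hP : ∀ i j, (P i j).natDegree ≤ n)
    (f : Fin k → Fin (n + 1)) : (minor P f).natDegree ≤ k * n := by
  rw [minor, Matrix.det_apply']
  refine natDegree_sum_le_of_forall_le _ _ fun σ _ => natDegree_mul_le.trans ?_
  rw [natDegree_intCast, zero_add]
  exact (natDegree_prod_le _ _).trans ((sum_le_card_nsmul _ _ n fun i _ => hP _ _).trans (by simp))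

theorem Adm.minor {h : Om → RV n →ₗ[ℝ] RV n} (hh : Adm h) (a : Fin k → RV n) (hk : k ≤ n + 1)
    (f : Fin k → Fin (n + 1)) : ∃ p : ℝ[X], p.natDegree ≤ (n + 1) * n ∧
      ∀ y, minor (fun i => h y (a i)) f = p.eval (xi y) := by
  choose P hP hP' using hh.poly
  refine ⟨Pool.Agent.P.MP_728aaa_nt.minor (fun i => P (a i)) f,
    (natDegree_minor_le (fun i j => hP _ _) f).trans (Nat.mul_le_mul_right n hk), fun y => ?_⟩
  unfold Pool.Agent.P.MP_728aaa_nt.minor
  rw [← coe_evalRingHom, RingHom.map_det]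
  congr 1
  ext i j
  simp [hP']

/-- All independent tuples have a large product of norms. -/
def Mlow (h : RV n →ₗ[ℝ] RV n) (t : ℝ) : Prop :=
  ∀ (k : ℕ) (v : Fin k → ZV n), Ind v → t ≤ ∏ i, ‖h (rc (v i))‖

theorem mlow_of_marked {h : Om → RV n →ₗ[ℝ] RV n} {K : Submodule ℝ (RV n) → ℕ}
    {b : ∀ V, Fin (K V) → ZV n} (hb : ∀ V, Ind (b V))
    (hmin : ∀ V, ∀ (l : ℕ) (v : Fin l → ZV n), Ind v → sp v = V → sp (b V) = V ∧
      ∀ h : RV n →ₗ[ℝ] RV n, (Psi fun i => h (rc (b V i))) ≤ Psi fun i => h (rc (v i)))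
    {ε t : ℝ} (hε : 0 < ε) (hε1 : ε ≤ 1) (ht : 0 < t) {y : Om}
    (hy : Marked (fun V y => Psi fun i => h y (rc (b V i))) ε t {V | sp (b V) = V} y) :
    Mlow (h y) ((ε / (n + 1)) ^ (n + 1) * (ε / (n + 1).factorial) * t) := by
  classical
  obtain ⟨F, h1, h2, h3, h4⟩ := hy
  have h5 : ∀ (l : ℕ) (v : Fin l → ZV n), Ind v → (∀ s ∈ F, sp v ≤ s ∨ s ≤ sp v) →
      ε * t ≤ Psi fun i => h y (rc (v i)) := by
    intro l v hv hc
    refine le_trans ?_ ((hmin _ l v hv rfl).2 (h y))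
    by_cases hF : sp v ∈ F
    · exact (h3 _ hF).1
    · exact (mul_le_of_le_one_left ht.le hε1).trans (h4 _ (hmin _ l v hv rfl).1 hF hc)
  have h6 : ∀ w : ZV n, (∃ s ∈ F, rc w ∉ s) → ε / (n + 1) ≤ ‖h y (rc w)‖ := by
    rintro w ⟨s0, hs0, hw0⟩
    obtain ⟨s, hs⟩ := (F.filter fun s => rc w ∉ s).exists_maximal ⟨s0, mem_filter.mpr ⟨hs0, hw0⟩⟩
    obtain ⟨hsF, hws⟩ := mem_filter.mp hs.prop
    have h7 : Ind (Fin.cons w (b s) : Fin (K s + 1) → ZV n) := by
      have h8 := linearIndependent_finCons.mpr ⟨hb s, (show rc w ∉ sp (b s) by rwa [h1 s hsF])⟩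
      have h9 : (fun i => rc ((Fin.cons w (b s) : Fin (K s + 1) → ZV n) i)) =
          Fin.cons (rc w) fun i => rc (b s i) := funext fun i => Fin.cases rfl (fun _ => rfl) i
      unfold Ind
      rw [h9]
      exact h8
    have h8 : sp (Fin.cons w (b s) : Fin (K s + 1) → ZV n) = Submodule.span ℝ {rc w} ⊔ s := by
      conv_rhs => rw [← h1 s hsF]
      rw [sp, sp, ← Submodule.span_insert, ← Fin.range_cons]
      congr 2
      exact funext fun i => Fin.cases rfl (fun _ => rfl) i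
    have h9 := h5 _ _ h7 fun s' hs' => by
      rw [h8]
      by_cases hw : rc w ∈ s'
      · refine Or.inl (sup_le ((Submodule.span_singleton_le_iff_mem _ _).mpr hw) ?_)
        exact (h2 s hsF s' hs').resolve_right fun h => hws (h hw)
      · refine Or.inr (le_trans ?_ le_sup_right)
        exact (h2 s hsF s' hs').elim (hs.le_of_ge (mem_filter.mpr ⟨hs', hw⟩)) id
    have h10 := psi_succ_le fun i => h y (rc ((Fin.cons w (b s) : Fin (K s + 1) → ZV n) i))
    have h11 : (K s + 1 : ℝ) ≤ n + 1 := by exact_mod_cast h7.le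
    simp only [Fin.cons_zero, Fin.cons_succ] at h10
    have h12 : ε * t ≤ (n + 1) * ‖h y (rc w)‖ * t :=
      h9.trans (h10.trans (mul_le_mul (by gcongr) (h3 s hsF).2 (psi_nonneg _) (by positivity)))
    rw [div_le_iff₀' (by positivity)]
    exact le_of_mul_le_mul_right h12 ht
  intro l v hv
  let S : Finset (Fin l) := univ.filter fun i => ∃ s ∈ F, rc (v i) ∉ s
  obtain ⟨l', w, hw1, hw2, hw3⟩ := hv.sub Sᶜ
  have h7 := (h5 _ w hw1 fun s hs => Or.inl (Submodule.span_le.mpr (by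
    rintro _ ⟨j, rfl⟩
    obtain ⟨i, hi, hj⟩ := hw2 j
    by_contra hno
    exact mem_compl.mp hi (mem_filter.mpr ⟨mem_univ _, s, hs, hj ▸ hno⟩)))).trans (psi_le_prod _)
  rw [hw3 fun z => ‖h y (rc z)‖] at h7
  have h8 : (ε / (n + 1)) ^ (n + 1) ≤ ∏ i ∈ S, ‖h y (rc (v i))‖ := by
    refine le_trans (pow_le_pow_of_le_one (by positivity) ?_ (show S.card ≤ n + 1 from
      (card_le_univ S).trans (by simpa using hv.le))) ?_
    · rw [div_le_one (by positivity)]
      linarith [Nat.cast_nonneg (α := ℝ) n]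
    · rw [← prod_const]
      exact prod_le_prod (fun _ _ => by positivity) fun i hi => h6 _ (mem_filter.mp hi).2
  have h9 : ε / (n + 1).factorial * t ≤ ∏ i ∈ Sᶜ, ‖h y (rc (v i))‖ := by
    rw [div_mul_eq_mul_div, div_le_iff₀' (by positivity)]
    refine h7.trans (mul_le_mul_of_nonneg_right ?_ (prod_nonneg fun _ _ => norm_nonneg _))
    exact_mod_cast Nat.factorial_le hw1.le
  rw [← prod_mul_prod_compl S, mul_assoc]
  exact mul_le_mul h8 h9 (by positivity) (prod_nonneg fun _ _ => norm_nonneg _)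

/-- Two-sided concentration of the product of the successive minima on cylinders. -/
def Typ (n : ℕ) (κ η : ℝ) : Prop :=
  ∀ h : Om → RV n →ₗ[ℝ] RV n, Adm h → ∀ (x : Om) (m : ℕ), ∃ t, 0 < t ∧
    (∃ (k : ℕ) (v : Fin k → ZV n), Ind v ∧ ∀ y ∈ cyl x m, (Psi fun i => h y (rc (v i))) ≤ t) ∧
    ms {y | ¬ Mlow (h y) (κ * t)} x m ≤ η * (1 / 2) ^ m

theorem Typ.mono {κ κ' η : ℝ} (h : Typ n κ η) (hκ : κ' ≤ κ) : Typ n κ' η := by
  intro g hg x m
  obtain ⟨t, ht, h1, h2⟩ := h g hg x m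
  refine ⟨t, ht, h1, le_trans (ms_mono ?_) h2⟩
  intro y _ hy h3
  exact hy fun k v hv => (mul_le_mul_of_nonneg_right hκ ht.le).trans (h3 k v hv)

theorem typ_of_good {ε η : ℝ} (hε : 0 < ε) (hε1 : ε ≤ 1) (hη : 0 ≤ η)
    (hG : ∀ p : ℝ[X], p.natDegree ≤ (n + 1) * n → Good ε η fun y => |p.eval (xi y)|) :
    Typ n ((ε / (n + 1)) ^ (n + 1) * (ε / (n + 1).factorial) / 2) (4 ^ (n + 2) * η) := by
  classical
  intro h hh x m
  choose K b hb hmin using exists_min_basis (n := n)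
  let ψ : Submodule ℝ (RV n) → Om → ℝ := fun V y => Psi fun i => h y (rc (b V i))
  obtain ⟨c, hc, hlow⟩ := hh.low
  have h1 : ∃ t0, 0 < t0 ∧ ∀ V, t0 ≤ ψ V x := by
    refine ⟨min 1 c ^ (n + 1) / 4 ^ ((n + 1) * (n + 1)), by positivity, fun V => ?_⟩
    obtain ⟨b', hb', hp⟩ := hermite_int (hh.inj x) (hb V)
    rw [div_le_iff₀' (by positivity)]
    refine le_trans (pow_le_pow_of_le_one (by positivity) (min_le_left _ _) (hb V).le)
      (le_trans ?_ hp)
    have := prod_le_prod (s := univ) (fun _ _ => by positivity) fun i _ =>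
      (min_le_right 1 c).trans (hlow x _ (hb'.ne_zero i))
    simpa using this
  obtain ⟨t0, ht0, h1⟩ := h1
  have h2 : ∃ j : ℕ, ∃ V, ∀ y ∈ cyl x m, ψ V y < 2 ^ j * t0 := by
    obtain ⟨j, hj⟩ := pow_unbounded_of_one_lt (1 / t0) (show (1 : ℝ) < 2 by norm_num)
    refine ⟨j, ⊥, fun y _ => ((hmin ⊥ 0 (fun i => i.elim0) linearIndependent_empty_type
      (by simp [sp])).2 (h y)).trans_lt ?_⟩
    rwa [psi_zero, ← div_lt_iff₀ ht0]
  obtain ⟨V0, hV0⟩ := Nat.find_spec h2
  have h3 := fun j => Nat.find_min h2 (m := j)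
  generalize Nat.find h2 = j at hV0 h3
  rcases j with - | j
  · exact absurd (hV0 x (self_mem_cyl x m)) (by simpa using h1 V0)
  have h4 := h3 j (Nat.lt_succ_self j)
  push Not at h4
  have ht : 0 < 2 ^ j * t0 := by positivity
  refine ⟨_, by positivity, ⟨_, b V0, hb V0, fun y hy => (hV0 y hy).le⟩, le_trans (ms_mono ?_)
    (km ψ hη ht (ε := ε) ?_ ?_ (n + 2) {V | sp (b V) = V} ?_ x m fun V _ => h4 V)⟩
  · intro y _ hy hm
    refine hy ?_
    convert mlow_of_marked hb hmin hε hε1 ht hm using 1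
    ring
  · rintro V x m t ht ⟨y, hy, hle⟩
    obtain ⟨f, hf⟩ := exists_psi fun i => h y (rc (b V i))
    obtain ⟨p, hp, hp'⟩ := hh.minor (fun i => rc (b V i)) (hb V).le f
    refine le_trans (ms_mono fun z _ hz => ?_) (hG p hp x m t ht ⟨y, hy, ?_⟩)
    · exact lt_of_le_of_lt (hp' z ▸ abs_minor_le _ f) hz
    · rw [hp' y] at hf
      exact hle.trans hf.ge
  · intro V
    have h5 : {y | ψ V y < 2 ^ j * t0} =
        ⋂ f, {y | |minor (fun i => h y (rc (b V i))) f| < 2 ^ j * t0} := by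
      ext y
      simp only [Set.mem_iInter, Set.mem_ofPred_eq]
      refine ⟨fun h5 f => (abs_minor_le _ f).trans_lt h5, fun h5 => ?_⟩
      obtain ⟨f, hf⟩ := exists_psi fun i => h y (rc (b V i))
      exact hf.ge.trans_lt (h5 f)
    rw [h5]
    refine isOpen_iInter_of_finite fun f => ?_
    obtain ⟨p, -, hp'⟩ := hh.minor (fun i => rc (b V i)) (hb V).le f
    simp only [hp']
    exact isOpen_lt (p.continuous.comp continuous_xi).abs continuous_const
  · intro F _ hF
    have h5 := card_le_card_of_injOn (s := F) (t := range (n + 2))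
      (fun V : Submodule ℝ (RV n) => Module.finrank ℝ V)
      (fun V _ => by simpa [Nat.lt_succ_iff] using V.finrank_le)
      fun V hV V' hV' hVV => (hF V hV V' hV').elim
        (fun h => Submodule.eq_of_le_of_finrank_eq h hVV)
        fun h => (Submodule.eq_of_le_of_finrank_eq h hVV.symm).symm
    simpa using h5

theorem exists_typ (n : ℕ) : ∃ θ A : ℝ, 0 < θ ∧ θ ≤ 1 ∧ 0 ≤ A ∧
    ∀ r : ℕ, Typ n (θ ^ (r + 1)) (A * (1 / 2) ^ r) := by
  set N := (n + 1) * n
  let a : ℝ := 1 / ((N + 2) * (40 * 16) ^ N)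
  let c : ℝ := (1 / (n + 1)) ^ (n + 1) * (1 / (n + 1).factorial) / 2
  have ha : 0 < a := by positivity
  have hN : (1 : ℝ) ≤ N + 2 := by linarith [Nat.cast_nonneg (α := ℝ) N]
  have ha1 : a ≤ 1 := (div_le_one (by positivity)).mpr
    (one_le_mul_of_one_le_of_one_le hN (one_le_pow₀ (by norm_num)))
  have hc : 0 < c := by positivity
  have hc1 : c ≤ 1 := by
    have h1 : (1 / (n + 1 : ℝ)) ^ (n + 1) ≤ 1 := pow_le_one₀ (by positivity)
      ((div_le_one (by positivity)).mpr (by linarith [Nat.cast_nonneg (α := ℝ) n]))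
    have h2 : 1 / ((n + 1).factorial : ℝ) ≤ 1 := (div_le_one (by positivity)).mpr
      (by exact_mod_cast (n + 1).factorial_pos)
    have h3 := mul_le_one₀ h1 (by positivity) h2
    simp only [c]
    linarith
  refine ⟨c * a ^ (n + 2), 4 ^ (n + 2) * N, by positivity,
    mul_le_one₀ hc1 (by positivity) (pow_le_one₀ ha.le ha1), by positivity, fun r => ?_⟩
  have h1 : a ^ (r + 1) ≤ 1 / ((N + 2) * (40 * 16 ^ r) ^ N) := by
    rw [one_div_pow, mul_pow, ← pow_mul, mul_comm N, pow_mul]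
    refine one_div_le_one_div_of_le (by positivity) (mul_le_mul (le_self_pow₀ hN (by omega))
      (pow_le_pow_left₀ (by positivity) ?_ N) (by positivity) (by positivity))
    rw [mul_pow]
    exact mul_le_mul (le_self_pow₀ (by norm_num) (by omega))
      (pow_le_pow_right₀ (by norm_num) (by omega)) (by positivity) (by positivity)
  have h2 := typ_of_good (n := n) (ε := a ^ (r + 1)) (η := N * (1 / 2) ^ r) (by positivity)
    (pow_le_one₀ ha.le ha1) (by positivity) fun p hp x m t ht hy =>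
      le_trans (ms_mono fun y _ hy => lt_of_lt_of_le hy (mul_le_mul_of_nonneg_right h1 ht.le))
        (good_poly hp r x m t ht hy)
  rw [mul_assoc]
  refine h2.mono ?_
  calc _ = c ^ (r + 1) * (a ^ (r + 1)) ^ (n + 2) := by
        rw [mul_pow, ← pow_mul, ← pow_mul, mul_comm (n + 2)]
    _ ≤ c * (a ^ (r + 1)) ^ (n + 2) := by
        gcongr
        exact pow_le_of_le_one hc.le hc1 (by omega)
    _ = _ := by
        simp only [c, div_pow]
        ring

end Pool.Agent.P.MP_728aaa_nt
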