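import Pool.Agent.P.MP_728aaa_nt.Compare

namespace Pool.Agent.P.MP_728aaa_nt

open Finset Polynomial

variable {n k : ℕ}

/-- Taylor coefficients of an integer polynomial at a real point. -/
noncomputable def tc (P : ℤ[X]) (x : ℝ) (i : ℕ) : ℝ :=
  (taylor x (P.map (Int.castRingHom ℝ))).coeff i

/-- A bound for the height. -/
def HLe (P : ℤ[X]) (B : ℝ) : Prop := ∀ i, |(P.coeff i : ℝ)| ≤ B

/-- The weighted Taylor map. -/
noncomputable def tay (τ : RV n) (x : ℝ) : RV n →ₗ[ℝ] RV n :=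
  LinearMap.pi fun i => (τ i)⁻¹ • (lcoeff ℝ i ∘ₗ taylor x ∘ₗ ofFn (n + 1))

/-- The polynomial with given coefficients. -/
noncomputable def pz (z : ZV n) : ℤ[X] := ofFn (n + 1) z

/-- A constant. -/
def C0 (n : ℕ) : ℝ := (n + 1) * 2 ^ n

theorem one_le_C0 (n : ℕ) : 1 ≤ C0 n :=
  one_le_mul_of_one_le_of_one_le (by linarith [Nat.cast_nonneg (α := ℝ) n])
    (one_le_pow₀ one_le_two)

theorem C0_pos (n : ℕ) : 0 < C0 n := one_pos.trans_le (one_le_C0 n)

theorem natDegree_ofFn_le {R : Type*} [Semiring R] [DecidableEq R] (v : Fin (n + 1) → R) :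
    (ofFn (n + 1) v).natDegree ≤ n := Nat.lt_succ_iff.mp (ofFn_natDegree_lt (by omega) v)

theorem map_pz (z : ZV n) : (pz z).map (Int.castRingHom ℝ) = ofFn (n + 1) (rc z) := by
  ext i
  rw [coeff_map, pz]
  rcases lt_or_ge i (n + 1) with h | h
  · simp [ofFn_coeff_eq_val_of_lt _ h, rc]
  · simp [ofFn_coeff_eq_zero_of_ge _ h]

theorem pz_ne_zero {z : ZV n} (hz : z ≠ 0) : pz z ≠ 0 := fun h =>
  hz (injective_ofFn (n + 1) (h.trans (map_zero _).symm))

theorem exists_pz {P : ℤ[X]} (hP : P ≠ 0) (hn : P.natDegree ≤ n) :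
    ∃ z : ZV n, z ≠ 0 ∧ pz z = P := by
  have h := ofFn_comp_toFn_eq_id_of_natDegree_lt (Nat.lt_succ_of_le hn)
  exact ⟨toFn (n + 1) P, fun h0 => hP (by rw [← h, h0, map_zero]), h⟩

theorem tay_apply (τ : RV n) (x : ℝ) (v : RV n) (i : Fin (n + 1)) :
    tay τ x v i = (τ i)⁻¹ * (taylor x (ofFn (n + 1) v)).coeff i := rfl

theorem tay_rc (τ : RV n) (x : ℝ) (z : ZV n) (i : Fin (n + 1)) :
    tay τ x (rc z) i = (τ i)⁻¹ * tc (pz z) x i := by
  rw [tay_apply, tc, map_pz]

theorem taylor_coeff_le {p : ℝ[X]} (hp : p.natDegree ≤ n) {x B : ℝ} (hx : |x| ≤ 1)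
    (hB : ∀ i, |p.coeff i| ≤ B) (i : ℕ) : |(taylor x p).coeff i| ≤ C0 n * B := by
  have h0 : 0 ≤ B := (abs_nonneg _).trans (hB 0)
  rw [taylor_coeff, eval_eq_sum_range' (n := n + 1) (Nat.lt_succ_of_le
    ((natDegree_hasseDeriv_le _ _).trans ((Nat.sub_le _ _).trans hp)))]
  refine (abs_sum_le_sum_abs _ _).trans ((sum_le_card_nsmul _ _ (2 ^ n * B) fun j _ => ?_).trans
    (by simp [C0, mul_assoc]))
  rw [hasseDeriv_coeff, abs_mul, abs_mul, abs_pow]
  refine (mul_le_of_le_one_right (by positivity) (pow_le_one₀ (abs_nonneg _) hx)).trans ?_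
  rcases le_or_gt (j + i) n with h | h
  · refine mul_le_mul ?_ (hB _) (abs_nonneg _) (by positivity)
    rw [Nat.abs_cast]
    exact_mod_cast (Nat.choose_le_two_pow _ _).trans (Nat.pow_le_pow_right two_pos h)
  · rw [coeff_eq_zero_of_natDegree_lt (hp.trans_lt h), abs_zero, mul_zero]
    positivity

theorem tc_le {P : ℤ[X]} (hP : P.natDegree ≤ n) {x B : ℝ} (hx : |x| ≤ 1) (hB : HLe P B) (i : ℕ) :
    |tc P x i| ≤ C0 n * B :=
  taylor_coeff_le (natDegree_map_le.trans hP) hx (fun i => by simpa using hB i) i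

theorem tc_eq_zero {P : ℤ[X]} (x : ℝ) {i : ℕ} (h : P.natDegree < i) : tc P x i = 0 :=
  coeff_eq_zero_of_natDegree_lt (by rw [natDegree_taylor]; exact natDegree_map_le.trans_lt h)

theorem hle_of_tc {P : ℤ[X]} (hP : P.natDegree ≤ n) {x B : ℝ} (hx : |x| ≤ 1)
    (hB : ∀ i : Fin (n + 1), |tc P x i| ≤ B) : HLe P (C0 n * B) := by
  intro i
  have h := taylor_coeff_le (n := n) (p := taylor x (P.map (Int.castRingHom ℝ))) (x := -x) (B := B)
    (by rw [natDegree_taylor]; exact natDegree_map_le.trans hP) (by rwa [abs_neg]) (fun j => by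
      rcases lt_or_ge j (n + 1) with h | h
      · exact hB ⟨j, h⟩
      · exact (congrArg abs (tc_eq_zero x (hP.trans_lt h))).le.trans
          (abs_zero.le.trans ((abs_nonneg _).trans (hB 0)))) i
  simpa [taylor_taylor] using h

theorem tc_zero (P : ℤ[X]) (x : ℝ) : tc P x 0 = aeval x P := by
  rw [tc, taylor_coeff_zero, aeval_def, eval_map]
  rfl

theorem one_le_tc {P : ℤ[X]} (hP : P ≠ 0) (x : ℝ) : 1 ≤ |tc P x P.natDegree| := by
  rw [tc, ← natDegree_map_eq_of_injective (Int.castRingHom ℝ).injective_int,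
    coeff_taylor_natDegree, leadingCoeff_map_of_injective (Int.castRingHom ℝ).injective_int]
  simp only [eq_intCast]
  exact_mod_cast Int.one_le_abs (leadingCoeff_ne_zero.mpr hP)

theorem tc_root {P : ℤ[X]} (hP : P.natDegree ≤ n) {x ρ : ℝ} {β : ℂ} (h : aeval β P = 0)
    (hρ : ‖x - β‖ ≤ ρ) : |tc P x 0| ≤ ∑ j ∈ range n, |tc P x (j + 1)| * ρ ^ (j + 1) := by
  have h1 : aeval (β - x) (taylor x (P.map (Int.castRingHom ℝ))) = 0 := by
    rw [taylor_apply, aeval_comp, ← h, ← aeval_map_algebraMap ℝ β P]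
    simp
  rw [aeval_eq_sum_range' (n := n + 1) (Nat.lt_succ_of_le (by
    rw [natDegree_taylor]; exact natDegree_map_le.trans hP)), sum_range_succ', pow_zero,
    add_eq_zero_iff_neg_eq] at h1
  have h2 := congrArg norm h1
  rw [norm_neg, norm_smul, norm_one, mul_one, Real.norm_eq_abs] at h2
  refine h2.ge.trans ((norm_sum_le _ _).trans (sum_le_sum fun j _ => ?_))
  rw [norm_smul, norm_pow, norm_sub_rev]
  exact mul_le_mul_of_nonneg_left (pow_le_pow_left₀ (norm_nonneg _) hρ _) (abs_nonneg _)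

theorem tay_injective {τ : RV n} (hτ : ∀ i, 0 < τ i) (x : ℝ) : Function.Injective (tay τ x) := by
  refine (injective_iff_map_eq_zero _).mpr fun v hv => injective_ofFn (n + 1) ?_
  rw [map_zero, ← taylor_eq_zero x]
  ext i
  rcases lt_or_ge i (n + 1) with h | h
  · simpa [tay_apply, (hτ _).ne'] using congrFun hv ⟨i, h⟩
  · exact coeff_eq_zero_of_natDegree_lt
      (by rw [natDegree_taylor]; exact (natDegree_ofFn_le v).trans_lt h)

theorem adm_tay {τ : RV n} (hτ : ∀ i, 0 < τ i) : Adm fun y => tay τ (xi y) where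
  poly := fun v i => ⟨C (τ i)⁻¹ * hasseDeriv i (ofFn (n + 1) v), (natDegree_C_mul_le _ _).trans
    ((natDegree_hasseDeriv_le _ _).trans ((Nat.sub_le _ _).trans (natDegree_ofFn_le v))),
    fun y => by rw [tay_apply, taylor_coeff, eval_C_mul]⟩
  inj := fun _ => tay_injective hτ _
  low := ⟨(∑ i, τ i)⁻¹, inv_pos.mpr (sum_pos (fun i _ => hτ i) univ_nonempty), fun y z hz => by
    let i : Fin (n + 1) := ⟨(pz z).natDegree, Nat.lt_succ_of_le (natDegree_ofFn_le z)⟩
    refine le_trans ?_ (norm_le_pi_norm _ i)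
    rw [tay_rc, Real.norm_eq_abs, abs_mul, abs_of_pos (inv_pos.mpr (hτ i))]
    exact (inv_anti₀ (hτ i) (single_le_sum (fun i _ => (hτ i).le) (mem_univ i))).trans
      (le_mul_of_one_le_right (inv_pos.mpr (hτ i)).le (one_le_tc (pz_ne_zero hz) _))⟩

theorem exists_int_minor {v : Fin (k + 1) → ZV n} (hv : Ind v) :
    ∃ (x : ℕ) (f : Fin (k + 1) → Fin (n + 1)) (j : Fin (k + 1)), x ≤ n ∧ f j = 0 ∧
      1 ≤ |minor (fun i => tay 1 x (rc (v i))) f| := by
  obtain ⟨x, hx, h0⟩ : ∃ x ∈ range (n + 1), (pz (v 0)).eval (x : ℤ) ≠ 0 := by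
    by_contra hno
    push Not at hno
    refine pz_ne_zero (hv.ne_zero 0) (eq_zero_of_degree_lt_of_eval_index_eq_zero (range (n + 1))
      (v := fun x : ℕ => (x : ℤ)) (fun _ _ _ _ h => by simpa using h) ?_ hno)
    simpa [pz] using ofFn_degree_lt (v 0)
  let A : Fin (k + 1) → Fin (n + 1) → ℤ := fun i j => (taylor (x : ℤ) (pz (v i))).coeff j
  have h1 : ∀ f, minor (fun i => tay 1 x (rc (v i))) f = (minor A f : ℤ) := fun f => by
    rw [minor, minor, Int.cast_det]
    congr 1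
    ext i j
    have h2 := congrArg (coeff · (f j)) (map_taylor (pz (v i)) (x : ℤ) (Int.castRingHom ℝ))
    simp only [coeff_map, eq_intCast, Int.cast_natCast] at h2
    simp [tay_rc, tc, A, h2]
  obtain ⟨f, hf⟩ := exists_psi fun i => tay 1 x (rc (v i))
  have h2 := psi_pos_iff.mpr (LinearIndependent.map' hv (tay 1 x)
    (LinearMap.ker_eq_bot.mpr (tay_injective (fun _ => one_pos) _)))
  have h3 : minor A f ≠ 0 := fun h => by
    rw [h1, h] at hf
    exact h2.ne' (hf.symm.trans (by simp))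
  obtain ⟨j, hj⟩ : ∃ j, (Matrix.of fun a b => A a (f b)).cramer (fun a => A a 0) j ≠ 0 := by
    by_contra hno
    push Not at hno
    have h4 := Matrix.mulVec_cramer (Matrix.of fun a b => A a (f b)) fun a => A a 0
    rw [show (Matrix.of fun a b => A a (f b)).cramer (fun a => A a 0) = 0 from funext hno,
      Matrix.mulVec_zero] at h4
    refine mul_ne_zero h3 h0 ?_
    simpa [A, minor] using (congrFun h4 0).symm
  refine ⟨x, Function.update f j 0, j, Nat.lt_succ_iff.mp (mem_range.mp hx), by simp, ?_⟩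
  rw [h1, ← Int.cast_abs]
  have h4 : minor A (Function.update f j 0) ≠ 0 := by
    rw [Matrix.cramer_apply] at hj
    refine (congrArg (· ≠ 0) (congrArg Matrix.det ?_)).mpr hj
    ext a b
    by_cases h : b = j <;> simp [h]
  exact_mod_cast Int.one_le_abs h4

theorem psi_tay_low (n : ℕ) : ∃ c, 0 < c ∧ ∀ a b : ℝ, 0 < a → a ≤ b → 1 ≤ b → a * b ^ n ≤ c →
    ∀ (k : ℕ) (v : Fin k → ZV n), Ind v →
      ∃ y, 1 ≤ Psi fun i => tay (fun i => if i = 0 then a else b) (xi y) (rc (v i)) := by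
  obtain ⟨C, hC, h⟩ := eval_le_of_cantor ((n + 1) * n)
  refine ⟨1 / (2 * C), by positivity, fun a b ha hab hb hc k v hv => ?_⟩
  rcases k with - | k
  · exact ⟨fun _ => true, (psi_zero _).ge⟩
  obtain ⟨x, f, j, hx, hj, h1⟩ := exists_int_minor hv
  let D := minor (fun i j => hasseDeriv (j : Fin (n + 1)) (ofFn (n + 1) (rc (v i)))) f
  have hD : ∀ x, minor (fun i => tay 1 x (rc (v i))) f = D.eval x := fun x => by
    simp only [D, minor]
    rw [← coe_evalRingHom, RingHom.map_det]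
    congr 1
    ext i j
    simp [tay_apply, taylor_coeff]
  obtain ⟨y, hy⟩ : ∃ y, 1 / (2 * C) < |D.eval (xi y)| := by
    by_contra hno
    push Not at hno
    have h2 := h D ((natDegree_minor_le (fun i j => (natDegree_hasseDeriv_le _ _).trans
      ((Nat.sub_le _ _).trans (natDegree_ofFn_le _))) f).trans
      (Nat.mul_le_mul_right n hv.le)) _ hno x (by
        rw [Nat.abs_cast]
        exact_mod_cast hx.trans (by nlinarith))
    rw [← hD, show C * (1 / (2 * C)) = 1 / 2 by field_simp] at h2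
    linarith
  refine ⟨y, le_trans ?_ (abs_minor_le _ f)⟩
  set τ : RV n := fun i => if i = 0 then a else b
  have hτ : ∀ i, 0 < τ i ∧ τ i ≤ b := fun i => by
    simp only [τ]
    split_ifs <;> constructor <;> linarith
  have h2 : minor (fun i => tay τ (xi y) (rc (v i))) f = (∏ j, τ (f j))⁻¹ * D.eval (xi y) := by
    rw [← hD, minor, minor, ← prod_inv_distrib, ← Matrix.det_mul_row]
    congr 1
    ext i j
    simp [tay_apply]
  have h3 : ∏ j, τ (f j) ≤ a * b ^ n := by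
    rw [← mul_prod_erase _ _ (mem_univ j), hj]
    refine mul_le_mul (by simp [τ]) ?_ (prod_nonneg fun _ _ => (hτ _).1.le) ha.le
    refine (prod_le_prod (fun _ _ => (hτ _).1.le) fun _ _ => (hτ _).2).trans ?_
    rw [prod_const]
    exact pow_le_pow_right₀ hb (by simpa using hv.le)
  have h4 : 0 < ∏ j, τ (f j) := prod_pos fun _ _ => (hτ _).1
  rw [h2, abs_mul, abs_of_pos (inv_pos.mpr h4), le_inv_mul_iff₀ h4]
  linarith

theorem coeff_le_of_eval (n : ℕ) : ∃ C : ℝ, 1 ≤ C ∧ ∀ p : ℝ[X], p.natDegree ≤ n → ∀ B : ℝ,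
    (∀ u, 0 ≤ u → u ≤ 1 → |p.eval u| ≤ B) → ∀ j, |p.coeff j| ≤ C * B := by
  let v : ℕ → ℝ := fun i => i / (n + 1)
  refine ⟨1 + ∑ i ∈ range (n + 1), (Lagrange.basis (range (n + 1)) v i).supNorm,
    le_add_of_nonneg_right (sum_nonneg fun _ _ => supNorm_nonneg _), fun p hp B hB j => ?_⟩
  have h0 : 0 ≤ B := (abs_nonneg _).trans (hB 0 le_rfl zero_le_one)
  have h1 : Set.InjOn v (range (n + 1)) := fun i _ j _ h => by
    simpa [v, div_left_inj' (show (n + 1 : ℝ) ≠ 0 by positivity)] using h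
  have h2 : p.degree < (range (n + 1)).card := by
    rw [card_range]
    exact (degree_le_of_natDegree_le hp).trans_lt (by exact_mod_cast Nat.lt_succ_self n)
  conv_lhs => rw [Lagrange.eq_interpolate h1 h2]
  rw [Lagrange.interpolate_apply, finsetSum_coeff, add_mul, sum_mul]
  refine (abs_sum_le_sum_abs _ _).trans (le_add_of_nonneg_of_le (by positivity)
    (sum_le_sum fun i hi => ?_))
  rw [coeff_C_mul, abs_mul, mul_comm]
  refine mul_le_mul (le_supNorm (Lagrange.basis (range (n + 1)) v i) j) 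
    (hB _ (by positivity) ?_) (abs_nonneg _) (supNorm_nonneg _)
  rw [div_le_one (by positivity)]
  exact_mod_cast (mem_range.mp hi).le

theorem exists_real_root (n : ℕ) : ∃ C : ℝ, 1 ≤ C ∧ ∀ p : ℝ[X], p.natDegree ≤ n → ∀ x R : ℝ,
    0 < R → ∀ k, C * |(taylor x p).coeff 0| < |(taylor x p).coeff k| * R ^ k →
      ∃ β, |x - β| ≤ R ∧ (p.eval β = 0 ∨ p.derivative.eval β = 0) := by
  obtain ⟨C, hC, h⟩ := coeff_le_of_eval n
  refine ⟨C, hC, fun p hp x R hR k hk => ?_⟩
  have h1 : ∀ s : ℝ, |s| = R → ∃ u, 0 ≤ u ∧ u ≤ 1 ∧ p.eval x ^ 2 < p.eval (s * u + x) ^ 2 := by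
    intro s hs
    by_contra hno
    push Not at hno
    have h2 := h ((taylor x p).comp (Polynomial.C s * X)) (natDegree_comp_le.trans (by
      rw [natDegree_taylor]
      exact (Nat.mul_le_mul hp ((natDegree_C_mul_le _ _).trans natDegree_X_le)).trans
        (mul_one n).le)) |p.eval x| (fun u h1 h2 => by
      simpa [eval_comp, taylor_eval, sq_le_sq] using hno u h1 h2) k
    rw [comp_C_mul_X_coeff, abs_mul, abs_pow, hs] at h2
    rw [taylor_coeff_zero] at hk
    linarith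
  obtain ⟨u1, h2, h3, h4⟩ := h1 R (abs_of_pos hR)
  obtain ⟨u2, h5, h6, h7⟩ := h1 (-R) (by rw [abs_neg, abs_of_pos hR])
  have h8 : x ∈ Set.Icc (-R * u2 + x) (R * u1 + x) := by constructor <;> nlinarith
  obtain ⟨β, hβ, hmin⟩ := isCompact_Icc.exists_isMinOn ⟨x, h8⟩
    (f := fun t => (p ^ 2).eval t) (p ^ 2).continuous.continuousOn
  have h9 : p.eval β ^ 2 ≤ p.eval x ^ 2 := by simpa using hmin h8
  have h10 := (hmin.isLocalMin (Icc_mem_nhds
    (lt_of_le_of_ne hβ.1 fun h => by rw [← h] at h9; linarith)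
    (lt_of_le_of_ne hβ.2 fun h => by rw [h] at h9; linarith))).deriv_eq_zero
  rw [Polynomial.deriv, derivative_sq] at h10
  refine ⟨β, abs_le.mpr ⟨by nlinarith [hβ.2], by nlinarith [hβ.1]⟩, by simpa using h10⟩

end Pool.Agent.P.MP_728aaa_nt
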