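import Mathlib

namespace Pool.Agent.P.MP_728aaa_nt

open MeasureTheory Set Filter Topology

/-- The binary tree boundary. -/
abbrev Om : Type := ℕ → Bool

/-- The fair coin-tossing measure. -/
noncomputable def mu : Measure Om :=
  Measure.infinitePi fun _ => (PMF.uniformOfFintype Bool).toMeasure

instance : IsProbabilityMeasure mu := by
  unfold mu
  infer_instance

/-- Cylinders. -/
def cyl (x : Om) (n : ℕ) : Set Om := PiNat.cylinder (E := fun _ => Bool) x n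

theorem mem_cyl {x y : Om} {n : ℕ} : y ∈ cyl x n ↔ ∀ i < n, y i = x i := Iff.rfl

theorem self_mem_cyl (x : Om) (n : ℕ) : x ∈ cyl x n := fun _ _ => rfl

theorem cyl_eq_of_mem {x y : Om} {n : ℕ} (h : y ∈ cyl x n) : cyl y n = cyl x n :=
  PiNat.mem_cylinder_iff_eq.mp h

theorem cyl_anti (x : Om) {m n : ℕ} (h : m ≤ n) : cyl x n ⊆ cyl x m := PiNat.cylinder_anti x h

theorem cyl_subset {x y : Om} {m n : ℕ} (hy : y ∈ cyl x m) (h : m ≤ n) : cyl y n ⊆ cyl x m :=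
  (cyl_anti y h).trans (cyl_eq_of_mem hy).subset

theorem cyl_zero (x : Om) : cyl x 0 = univ := PiNat.cylinder_zero x

theorem isOpen_cyl (x : Om) (n : ℕ) : IsOpen (cyl x n) := PiNat.isOpen_cylinder _ x n

theorem isClosed_cyl (x : Om) (n : ℕ) : IsClosed (cyl x n) := by
  unfold cyl
  rw [PiNat.cylinder_eq_pi]
  exact isClosed_set_pi fun _ _ => isClosed_discrete _

theorem measurableSet_cyl (x : Om) (n : ℕ) : MeasurableSet (cyl x n) :=
  (isOpen_cyl x n).measurableSet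

theorem exists_cyl_subset {U : Set Om} (hU : IsOpen U) {x : Om} (hx : x ∈ U) (n : ℕ) :
    ∃ m, n ≤ m ∧ cyl x m ⊆ U := by
  obtain ⟨_, ⟨y, m, rfl⟩, h1, h2⟩ :=
    (PiNat.isTopologicalBasis_cylinders fun _ : ℕ => Bool).exists_subset_of_mem_open hx hU
  exact ⟨max n m, le_max_left _ _, (cyl_subset h1 (le_max_right _ _)).trans h2⟩

theorem mu_cyl (x : Om) (n : ℕ) : mu.real (cyl x n) = (1 / 2) ^ n := by
  unfold cyl mu
  rw [PiNat.cylinder_eq_pi, Measure.real,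
    Measure.infinitePi_pi _ fun _ _ => measurableSet_singleton _]
  simp

/-- The mass of a set in a cylinder. -/
noncomputable def ms (E : Set Om) (x : Om) (n : ℕ) : ℝ := mu.real (E ∩ cyl x n)

theorem ms_nonneg (E : Set Om) (x : Om) (n : ℕ) : 0 ≤ ms E x n := measureReal_nonneg

theorem ms_univ (x : Om) (n : ℕ) : ms univ x n = (1 / 2) ^ n := by
  rw [ms, univ_inter, mu_cyl]

theorem ms_mono' {E F : Set Om} {x y : Om} {m n : ℕ} (h : E ∩ cyl x n ⊆ F ∩ cyl y m) :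
    ms E x n ≤ ms F y m := measureReal_mono h

theorem ms_mono {E F : Set Om} {x : Om} {n : ℕ} (h : ∀ y ∈ cyl x n, y ∈ E → y ∈ F) :
    ms E x n ≤ ms F x n := ms_mono' fun y hy => ⟨h y hy.2 hy.1, hy.2⟩

theorem ms_le (E : Set Om) (x : Om) (n : ℕ) : ms E x n ≤ (1 / 2) ^ n :=
  (ms_mono fun _ _ _ => mem_univ _).trans (ms_univ x n).le

theorem ms_union_le (E F : Set Om) (x : Om) (n : ℕ) : ms (E ∪ F) x n ≤ ms E x n + ms F x n := by
  rw [ms, union_inter_distrib_right]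
  exact measureReal_union_le _ _

theorem ms_congr (E : Set Om) {x y : Om} {n : ℕ} (h : y ∈ cyl x n) : ms E y n = ms E x n := by
  rw [ms, ms, cyl_eq_of_mem h]

theorem ms_eq_zero {E : Set Om} {x : Om} {n : ℕ} (h : ∀ y ∈ cyl x n, y ∉ E) : ms E x n = 0 := by
  have : E ∩ cyl x n = ∅ := eq_empty_of_forall_notMem fun y hy => h y hy.2 hy.1
  simp [ms, this]

theorem exists_of_ms_lt {E F : Set Om} {x : Om} {n : ℕ} (h : ms F x n < ms E x n) :
    ∃ y ∈ cyl x n, y ∈ E ∧ y ∉ F := by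
  by_contra hno
  push Not at hno
  exact absurd (ms_mono hno) (not_le.mpr h)

theorem ms_split (E : Set Om) (x : Om) (n : ℕ) : ms E x n =
    ms E (Function.update x n true) (n + 1) + ms E (Function.update x n false) (n + 1) := by
  have h := measureReal_inter_add_sdiff (μ := mu) (s := E ∩ cyl x n)
    (measurableSet_cyl (Function.update x n true) (n + 1))
  have h1 : ∀ (b : Bool) (y : Om), y ∈ cyl (Function.update x n b) (n + 1) ↔
      y ∈ cyl x n ∧ y n = b := by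
    intro b y
    simp only [mem_cyl, Nat.lt_succ_iff_lt_or_eq, or_imp, forall_and, forall_eq,
      Function.update_self]
    exact and_congr_left fun _ => forall₂_congr fun i hi => by rw [Function.update_of_ne hi.ne]
  unfold ms
  rw [← h]
  congr 2
  · ext y
    simp only [mem_inter_iff, h1]
    tauto
  · ext y
    simp only [mem_inter_iff, Set.mem_sdiff, h1]
    cases y n <;> simp

theorem ms_iUnion_le {A : ℕ → Set Om} {a : ℕ → ℝ} {x : Om} {n : ℕ} (h : ∀ j, ms (A j) x n ≤ a j)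
    (ha : Summable a) : ms (⋃ j, A j) x n ≤ ∑' j, a j := by
  have h0 : ∀ j, 0 ≤ a j := fun j => (ms_nonneg _ _ _).trans (h j)
  rw [ms, iUnion_inter, Measure.real]
  refine ENNReal.toReal_le_of_le_ofReal (tsum_nonneg h0) ?_
  rw [ENNReal.ofReal_tsum_of_nonneg h0 ha]
  refine (measure_iUnion_le _).trans (ENNReal.tsum_le_tsum fun j => ?_)
  rw [← ofReal_measureReal]
  exact ENNReal.ofReal_le_ofReal (h j)

theorem ms_biUnion_le {ι : Type*} (s : Finset ι) (A : ι → Set Om) (x : Om) (n : ℕ) :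
    ms (⋃ i ∈ s, A i) x n ≤ ∑ i ∈ s, ms (A i) x n := by
  rw [ms, iUnion₂_inter]
  exact measureReal_biUnion_finset_le _ _

/-- A covering lemma on the tree. -/
theorem vitali (E F : Set Om) (θ : ℝ) (hθ : 0 ≤ θ) (x : Om) (n : ℕ)
    (h : ∀ y ∈ cyl x n, y ∈ E → ∃ m, n ≤ m ∧ ms E y m ≤ θ * ms F y m) :
    ms E x n ≤ θ * ms F x n := by
  have key : ∀ (E' : Set Om), E' ⊆ E → ∀ (k : ℕ) (x : Om) (n : ℕ),
      (∀ y ∈ cyl x n, y ∈ E' → ∃ m, n ≤ m ∧ m < n + k ∧ ms E y m ≤ θ * ms F y m) →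
      ms E' x n ≤ θ * ms F x n := by
    intro E' hE' k
    induction k with
    | zero =>
      intro x n h
      rw [ms_eq_zero fun y hy hE => by
        obtain ⟨m, h1, h2, -⟩ := h y hy hE
        omega]
      exact mul_nonneg hθ (ms_nonneg _ _ _)
    | succ k ih =>
      intro x n h
      by_cases hg : ms E x n ≤ θ * ms F x n
      · exact (ms_mono fun y _ hy => hE' hy).trans hg
      have h1 : ∀ b : Bool, ms E' (Function.update x n b) (n + 1) ≤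
          θ * ms F (Function.update x n b) (n + 1) := fun b => ih _ _ fun y hy hE => by
        have hy' : y ∈ cyl x n :=
          cyl_subset (PiNat.update_mem_cylinder (E := fun _ => Bool) x n b) (Nat.le_succ n) hy
        obtain ⟨m, h1, h2, h3⟩ := h y hy' hE
        refine ⟨m, ?_, by omega, h3⟩
        rcases h1.eq_or_lt with rfl | h4
        · rw [ms_congr _ hy', ms_congr _ hy'] at h3
          exact absurd h3 hg
        · exact h4
      rw [ms_split, ms_split F, mul_add]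
      exact add_le_add (h1 true) (h1 false)
  let G : ℕ → Set Om := fun k =>
    {y | y ∈ E ∧ ∃ m, n ≤ m ∧ m < n + k ∧ ms E y m ≤ θ * ms F y m} ∩ cyl x n
  have hG : Monotone G := fun k l hkl y ⟨⟨h1, m, h2, h3, h4⟩, h5⟩ =>
    ⟨⟨h1, m, h2, by omega, h4⟩, h5⟩
  have h1 : E ∩ cyl x n = ⋃ k, G k := by
    ext y
    simp only [mem_iUnion]
    refine ⟨fun ⟨h1, h2⟩ => ?_, fun ⟨k, hk⟩ => ⟨hk.1.1, hk.2⟩⟩
    obtain ⟨m, h3, h4⟩ := h y h2 h1
    exact ⟨m + 1, ⟨h1, m, h3, by omega, h4⟩, h2⟩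
  have h2 := (ENNReal.tendsto_toReal (measure_ne_top mu _)).comp
    (tendsto_measure_iUnion_atTop (μ := mu) hG)
  rw [ms, h1]
  exact le_of_tendsto' h2 fun k => key _ (fun y hy => hy.1) k x n fun y _ hy => hy.2

/-- Functions that are rarely much smaller than their supremum. -/
def Good (ε η : ℝ) (f : Om → ℝ) : Prop :=
  ∀ (x : Om) (n : ℕ) (t : ℝ), 0 < t → (∃ y ∈ cyl x n, t ≤ f y) →
    ms {y | f y < ε * t} x n ≤ η * (1 / 2) ^ n

/-- Marked points in the sense of Kleinbock and Margulis. -/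
def Marked {S : Type*} [PartialOrder S] (ψ : S → Om → ℝ) (ε t : ℝ) (T : Set S) (y : Om) : Prop :=
  ∃ F : Finset S, (∀ s ∈ F, s ∈ T) ∧ (∀ s ∈ F, ∀ s' ∈ F, s ≤ s' ∨ s' ≤ s) ∧
    (∀ s ∈ F, ε * t ≤ ψ s y ∧ ψ s y ≤ t) ∧
    ∀ s ∈ T, s ∉ F → (∀ s' ∈ F, s ≤ s' ∨ s' ≤ s) → t ≤ ψ s y

/-- The Kleinbock-Margulis induction on a tree. -/
theorem km {S : Type*} [PartialOrder S] (ψ : S → Om → ℝ) {ε η t : ℝ} (hη : 0 ≤ η) (ht : 0 < t)
    (hgood : ∀ s, Good ε η (ψ s)) (hcont : ∀ s, IsOpen {y | ψ s y < t}) (k : ℕ) :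
    ∀ T : Set S, (∀ F : Finset S, (∀ s ∈ F, s ∈ T) → (∀ s ∈ F, ∀ s' ∈ F, s ≤ s' ∨ s' ≤ s) →
      F.card ≤ k) → ∀ (x : Om) (n : ℕ), (∀ s ∈ T, ∃ y ∈ cyl x n, t ≤ ψ s y) →
      ms {y | ¬ Marked ψ ε t T y} x n ≤ 4 ^ k * η * (1 / 2) ^ n := by
  classical
  induction k with
  | zero =>
    intro T hT x n _
    rw [ms_eq_zero (E := {y | ¬ Marked ψ ε t T y}) fun y _ hy =>
      hy ⟨∅, by simp, by simp, by simp, fun s hs => by
        simpa using hT {s} (by simpa using hs) (by simp)⟩]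
    positivity
  | succ k ih =>
    intro T hT x n hx
    rw [← ms_univ x n]
    refine vitali _ _ _ (by positivity) x n fun y hy hE => ?_
    have h1 : ∃ m, n ≤ m ∧ ∃ s ∈ T, ∀ z ∈ cyl y m, ψ s z < t := by
      by_contra hno
      refine hE ⟨∅, by simp, by simp, by simp, fun s hs _ _ => ?_⟩
      by_contra hlt
      obtain ⟨m, h1, h2⟩ := exists_cyl_subset (hcont s) (not_le.mp hlt) n
      exact hno ⟨m, h1, s, hs, h2⟩
    obtain ⟨hm1, s0, hs0, hm2⟩ := Nat.find_spec h1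
    have hmin := fun m => Nat.find_min h1 (m := m)
    generalize Nat.find h1 = m at hm1 hm2 hmin
    refine ⟨m, hm1, ?_⟩
    have hlt : n < m := by
      refine lt_of_le_of_ne hm1 ?_
      rintro rfl
      obtain ⟨z, hz, hz'⟩ := hx s0 hs0
      exact absurd (hm2 z (cyl_eq_of_mem hy ▸ hz)) (not_lt.mpr hz')
    obtain ⟨m, rfl⟩ : ∃ m', m = m' + 1 := ⟨m - 1, by omega⟩
    have hpar : ∀ s ∈ T, ∃ z ∈ cyl y m, t ≤ ψ s z := by
      intro s hs
      by_contra hno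
      push Not at hno
      exact hmin m (by omega) ⟨by omega, s, hs, hno⟩
    let T' : Set S := {s | s ∈ T ∧ s ≠ s0 ∧ (s ≤ s0 ∨ s0 ≤ s)}
    have hchain : ∀ F : Finset S, (∀ s ∈ F, s ∈ T') → (∀ s ∈ F, ∀ s' ∈ F, s ≤ s' ∨ s' ≤ s) →
        (∀ s ∈ insert s0 F, s ∈ T) ∧ ∀ s ∈ insert s0 F, ∀ s' ∈ insert s0 F, s ≤ s' ∨ s' ≤ s := by
      intro F h1 h2
      simp only [Finset.mem_insert, forall_eq_or_imp, le_refl, or_self, true_and]
      exact ⟨⟨hs0, fun s hs => (h1 s hs).1⟩, fun s hs => (h1 s hs).2.2.symm,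
        fun s hs => ⟨(h1 s hs).2.2, h2 s hs⟩⟩
    have h2 := ih T' (fun F h1 h2 => by
      have h3 := hT _ (hchain F h1 h2).1 (hchain F h1 h2).2
      rw [Finset.card_insert_of_notMem fun h => (h1 _ h).2.1 rfl] at h3
      omega) y m fun s hs => hpar s hs.1
    have h3 := hgood s0 y m t ht (hpar s0 hs0)
    have h4 : ms {y | ¬ Marked ψ ε t T y} y (m + 1) ≤
        ms ({z | ψ s0 z < ε * t} ∪ {z | ¬ Marked ψ ε t T' z}) y m := by
      refine ms_mono' fun z ⟨hz1, hz2⟩ => ⟨?_, cyl_anti y (Nat.le_succ m) hz2⟩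
      by_contra hno
      simp only [mem_union, mem_ofPred_eq, not_or, not_lt, not_not] at hno
      obtain ⟨h5, F, h6, h7, h8, h9⟩ := hno
      refine hz1 ⟨insert s0 F, (hchain F h6 h7).1, (hchain F h6 h7).2, ?_, fun s hs hsF hc => ?_⟩
      · simp only [Finset.mem_insert, forall_eq_or_imp]
        exact ⟨⟨h5, (hm2 z hz2).le⟩, h8⟩
      · simp only [Finset.mem_insert, forall_eq_or_imp, not_or] at hsF hc
        exact h9 s ⟨hs, hsF.1, hc.1⟩ hsF.2 hc.2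
    have h5 := ms_union_le {z | ψ s0 z < ε * t} {z | ¬ Marked ψ ε t T' z} y m
    have h6 : (1 : ℝ) ≤ 4 ^ k := one_le_pow₀ (by norm_num)
    have h7 : 0 ≤ η * (1 / 2) ^ m := by positivity
    rw [ms_univ, pow_succ, pow_succ]
    nlinarith

/-- One step of the stopping-time construction. -/
theorem stopping_step {A L L' : ℕ → Set Om} {O : ℕ → Set Om} (hA : ∀ j, IsClosed (A j))
    (hO : ∀ j, IsOpen (O j)) (hLO : ∀ j, L j ⊆ O j) {j0 : ℕ}
    (hdich : ∀ x n, 2 * ms (⋃ j, L (j0 + j)) x n < (1 / 2) ^ n →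
      8 * ms (⋃ j, A (j0 + j)) x n ≤ (1 / 2) ^ n)
    (hgen : ∀ δ > 0, ∃ j1, mu.real (⋃ j, L' (j1 + j)) < δ)
    (hdense : ∀ x n, ∃ y ∈ cyl x n, ∃ m j, cyl y m ⊆ L (j0 + j)) (j2 : ℕ) (x : Om) (n : ℕ)
    (hx : 2 * ms (⋃ j, L (j0 + j)) x n < (1 / 2) ^ n) :
    ∃ (j0' : ℕ) (x' : Om) (n' : ℕ), j2 ≤ j0' ∧ cyl x' n' ⊆ cyl x n ∧
      2 * ms (⋃ j, L' (j0' + j)) x' n' < (1 / 2) ^ n' ∧ (∃ j, cyl x' n' ⊆ O (j0 + j)) ∧
      ∀ j, j0 ≤ j → j < j0' → ∀ z ∈ cyl x' n', z ∉ A j := by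
  classical
  obtain ⟨y, hy, m0, j, hm0⟩ := hdense x n
  have h1 : ∃ m, n ≤ m ∧ ¬ 2 * ms (⋃ j, L (j0 + j)) y m < (1 / 2) ^ m := by
    refine ⟨max n m0, le_max_left _ _, not_lt.mpr ?_⟩
    have h2 : ms univ y (max n m0) ≤ ms (⋃ j, L (j0 + j)) y (max n m0) :=
      ms_mono fun z hz _ => mem_iUnion.mpr ⟨j, hm0 (cyl_anti y (le_max_right _ _) hz)⟩
    have h3 := ms_nonneg (⋃ j, L (j0 + j)) y (max n m0)
    rw [ms_univ] at h2
    linarith
  obtain ⟨hm1, hm2⟩ := Nat.find_spec h1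
  have hmin := fun m => Nat.find_min h1 (m := m)
  generalize Nat.find h1 = m at hm1 hm2 hmin
  have hlt : n < m := by
    refine lt_of_le_of_ne hm1 ?_
    rintro rfl
    exact hm2 (by rwa [ms_congr _ hy])
  obtain ⟨m, rfl⟩ : ∃ m', m = m' + 1 := ⟨m - 1, by omega⟩
  have h2 := hdich y m (by
    by_contra hno
    exact hmin m (by omega) ⟨by omega, hno⟩)
  have h3 : ms (⋃ j, A (j0 + j)) y (m + 1) ≤ ms (⋃ j, A (j0 + j)) y m :=
    ms_mono' (inter_subset_inter_right _ (cyl_anti y (Nat.le_succ m)))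
  obtain ⟨j1, hj1⟩ := hgen ((1 / 2) ^ (m + 1) / 8) (by positivity)
  let U' : Set Om := ⋃ j, L' (max j1 j2 + j)
  have h4 : ms U' y (m + 1) ≤ mu.real (⋃ j, L' (j1 + j)) := by
    refine measureReal_mono (inter_subset_left.trans (iUnion_subset fun i => ?_))
    refine subset_iUnion_of_subset (max j1 j2 - j1 + i) ?_
    rw [show j1 + (max j1 j2 - j1 + i) = max j1 j2 + i by omega]
  let M : Set Om := {z | ∃ l, m + 1 ≤ l ∧ (1 / 2) ^ l ≤ 2 * ms U' z l}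
  have h5 : ms M y (m + 1) ≤ 2 * ms U' y (m + 1) :=
    vitali _ _ _ (by norm_num) _ _ fun z _ ⟨l, h1, h2⟩ => ⟨l, h1, (ms_le _ _ _).trans h2⟩
  have h6 := ms_union_le (⋃ j, A (j0 + j)) M y (m + 1)
  obtain ⟨z, hz, hzU, hzV⟩ := exists_of_ms_lt (E := ⋃ j, L (j0 + j))
    (F := (⋃ j, A (j0 + j)) ∪ M) (x := y) (n := m + 1) (by
      rw [pow_succ] at hm2 hj1
      linarith)
  obtain ⟨i, hi⟩ := mem_iUnion.mp hzU
  simp only [mem_union, mem_iUnion, not_or, not_exists] at hzV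
  obtain ⟨l, hl1, hl2⟩ := exists_cyl_subset (U := O (j0 + i) ∩
      ⋂ j ∈ Finset.range (max j1 j2), (A (j0 + j))ᶜ)
    ((hO _).inter (isOpen_biInter_finset fun j _ => (hA _).isOpen_compl))
    ⟨hLO _ hi, mem_iInter₂.mpr fun j _ => hzV.1 j⟩ (m + 1)
  refine ⟨max j1 j2, z, l, le_max_right _ _, (cyl_subset hz hl1).trans (cyl_subset hy hm1),
    not_le.mp fun h => hzV.2 ⟨l, hl1, h⟩, ⟨i, fun w hw => (hl2 hw).1⟩, fun j h1 h2 w hw => ?_⟩
  have h7 := mem_iInter₂.mp (hl2 hw).2 (j - j0) (Finset.mem_range.mpr (by omega))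
  rwa [show j0 + (j - j0) = j by omega] at h7

/-- The stopping-time construction. -/
theorem stopping (A L : ℕ → ℕ → Set Om) (O : ℕ → Set Om) (hA : ∀ k j, IsClosed (A k j))
    (hmono : ∀ k k' j, k ≤ k' → A k j ⊆ A k' j) (hO : ∀ j, IsOpen (O j))
    (hLO : ∀ k j, L k j ⊆ O j)
    (hdich : ∀ k, ∃ j1, ∀ j0, j1 ≤ j0 → ∀ x n, 2 * ms (⋃ j, L k (j0 + j)) x n < (1 / 2) ^ n →
      8 * ms (⋃ j, A k (j0 + j)) x n ≤ (1 / 2) ^ n)
    (hgen : ∀ k, ∀ δ > 0, ∃ j1, mu.real (⋃ j, L k (j1 + j)) < δ)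
    (hdense : ∀ k j0 x n, ∃ y ∈ cyl x n, ∃ m j, cyl y m ⊆ L k (j0 + j)) :
    ∃ y, (∀ j0, ∃ j, j0 ≤ j ∧ y ∈ O j) ∧ ∀ k, ∃ j0, ∀ j, j0 ≤ j → y ∉ A k j := by
  choose J hJ using hdich
  let St : ℕ → Type := fun k => {p : ℕ × Om × ℕ // J k ≤ p.1 ∧
    2 * ms (⋃ j, L k (p.1 + j)) p.2.1 p.2.2 < (1 / 2) ^ p.2.2}
  have hstep : ∀ k, ∀ p : St k, ∃ q : St (k + 1), p.1.1 < q.1.1 ∧
      cyl q.1.2.1 q.1.2.2 ⊆ cyl p.1.2.1 p.1.2.2 ∧ (∃ j, cyl q.1.2.1 q.1.2.2 ⊆ O (p.1.1 + j)) ∧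
      ∀ j, p.1.1 ≤ j → j < q.1.1 → ∀ z ∈ cyl q.1.2.1 q.1.2.2, z ∉ A k j := by
    rintro k ⟨⟨j0, x, n⟩, h1, h2⟩
    obtain ⟨j0', x', n', h3, h4, h5, h6, h7⟩ := stopping_step (hA k) hO (hLO k) (hJ k j0 h1)
      (hgen (k + 1)) (hdense k j0) (max (j0 + 1) (J (k + 1))) x n h2
    exact ⟨⟨⟨j0', x', n'⟩, (le_max_right _ _).trans h3, h5⟩, (le_max_left _ _).trans h3,
      h4, h6, h7⟩
  choose f hf using hstep
  obtain ⟨j1, hj1⟩ := hgen 0 (1 / 2) (by norm_num)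
  have h0 : Nonempty (St 0) := by
    refine ⟨⟨⟨max j1 (J 0), fun _ => true, 0⟩, le_max_right _ _, ?_⟩⟩
    have h4 : ms (⋃ j, L 0 (max j1 (J 0) + j)) (fun _ => true) 0 ≤
        mu.real (⋃ j, L 0 (j1 + j)) := by
      refine measureReal_mono (inter_subset_left.trans (iUnion_subset fun i => ?_))
      refine subset_iUnion_of_subset (max j1 (J 0) - j1 + i) ?_
      rw [show j1 + (max j1 (J 0) - j1 + i) = max j1 (J 0) + i by omega]
    simp only [pow_zero]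
    linarith
  let p : ∀ k, St k := fun k => Nat.rec (motive := St) h0.some f k
  have hp : ∀ k, p (k + 1) = f k (p k) := fun k => rfl
  obtain ⟨y, hy⟩ := IsCompact.nonempty_iInter_of_sequence_nonempty_isCompact_isClosed
    (fun k => cyl (p k).1.2.1 (p k).1.2.2) (fun k => (hf k (p k)).2.1)
    (fun k => ⟨_, self_mem_cyl _ _⟩) (isClosed_cyl _ _).isCompact fun k => isClosed_cyl _ _
  have hy' := mem_iInter.mp hy
  have hsm : StrictMono fun k => (p k).1.1 := strictMono_nat_of_lt_succ fun k => (hf k (p k)).1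
  refine ⟨y, fun j0 => ?_, fun k => ⟨(p k).1.1, fun j hj => ?_⟩⟩
  · obtain ⟨j, hj⟩ := (hf j0 (p j0)).2.2.1
    exact ⟨_, (hsm.le_apply (x := j0)).trans (Nat.le_add_right _ _), hj (hy' (j0 + 1))⟩
  · have h1 : ∃ k', j < (p (k' + 1)).1.1 := ⟨j, hsm.le_apply (x := j + 1)⟩
    classical
    have h2 := Nat.find_spec h1
    have h3 := fun m => Nat.find_min h1 (m := m)
    generalize Nat.find h1 = k' at h2 h3
    have h4 : k ≤ k' := Nat.lt_succ_iff.mp (hsm.lt_iff_lt.mp (hj.trans_lt h2))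
    have h5 : (p k').1.1 ≤ j := by
      rcases h4.eq_or_lt with rfl | h5
      · exact hj
      · obtain ⟨k', rfl⟩ : ∃ m', k' = m' + 1 := ⟨k' - 1, by omega⟩
        exact not_lt.mp (h3 k' (by omega))
    exact fun h => (hf k' (p k')).2.2.2 j h5 h2 y (hy' (k' + 1)) (hmono _ _ _ h4 h)

end Pool.Agent.P.MP_728aaa_nt
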